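import Pool.Agent.Work.MP_b51559_nt.LF.Util

set_option autoImplicit false

/-! # Part C, item ADJ: two colourings are adhered to iff they are compatible and the join is -/

namespace MPb51559.BG.LF

open Finset Filter Topology MeasureTheory
open scoped Classical

theorem prf_ADJ : L_ADJ := by
  intro D0 S k h hS hh hinj d e n
  constructor
  · rintro ⟨hd, he⟩
    refine ⟨fun p => ?_, fun p i hp => ?_⟩
    · rcases hdp : d p with _ | i
      · exact Or.inl rfl
      · rcases hep : e p with _ | j
        · exact Or.inr (Or.inl rfl)
        · refine Or.inr (Or.inr ?_)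
          have h1 := eq_of_dvd hinj hh (hS p p.2) (hd p i hdp) (he p j hep)
          rw [h1]
    · unfold jn at hp
      split_ifs at hp with h1
      · exact he p i hp
      · exact hd p i hp
  · rintro ⟨hc, hj⟩
    refine ⟨fun p i hp => hj p i ?_, fun p i hp => hj p i ?_⟩
    · unfold jn
      rw [if_neg (by rw [hp]; simp)]
      exact hp
    · unfold jn
      rcases hc p with h1 | h1 | h1
      · rw [if_pos h1]
        exact hp
      · rw [h1] at hp
        exact absurd hp (by simp)
      · rw [if_neg (by rw [h1, hp]; simp), h1]
        exact hp

end MPb51559.BG.LF
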