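import Pool.Agent.Work.MP_b51559_nt.LF.Util

set_option autoImplicit false

/-!
# Block LF, item MAIN: from the two sums and the criterion to two primes
-/

namespace MPb51559.BG.LF

open Finset Filter Topology MeasureTheory
open scoped Classical

theorem MAIN_kap (D0 : ℕ) : 0 < kap D0 := by
  unfold kap
  have h1 : 0 < primorial D0 := primorial_pos D0
  have h2 : 0 < (primorial D0).totient := Nat.totient_pos.2 h1
  positivity

theorem MAIN_Nn {w : ℝ → ℝ} (hw : Wt w) (k D0 : ℕ) {δ x : ℝ} (hx : 0 < x)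
    (hR : 0 < Real.log (Rx δ x)) : 0 < Nn w k D0 δ x := by
  unfold Nn lk
  have h1 : (0 : ℝ) < primorial D0 := by exact_mod_cast primorial_pos D0
  have h2 := hw.pos
  have h3 := MAIN_kap D0
  positivity

theorem prf_MAIN (hV0 : L_V0) (hPOS : L_POS) : L_MAIN := by
  intro w hw k h hk hA P F hP hT hC h1 h2
  obtain ⟨AA, hAAdef⟩ : ∃ AA : ℕ, AA = ∑ i, (h i).1 := ⟨_, rfl⟩
  have hAle : ∀ i, (h i).1 ≤ AA := fun i => by
    rw [hAAdef]
    exact Finset.single_le_sum (f := fun i => (h i).1) (fun _ _ => Nat.zero_le _) (mem_univ i)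
  have hA1 : (1 : ℝ) ≤ AA := by
    have h1 := (hA.pos ⟨0, hk⟩).trans_le (hAle ⟨0, hk⟩)
    exact_mod_cast h1
  obtain ⟨xP, hxP⟩ := hPOS w hw k h hk hA AA hAle
  have hI : 0 ≤ ∫ t, F t ^ 2 := integral_nonneg fun t => sq_nonneg (F t)
  set I : ℝ := ∫ t, F t ^ 2 with hIdef
  set J : ℝ := ∑ m, Jm P F m with hJdef
  have hC' : 4 * I < J := hC
  have hkR : (0 : ℝ) < k := by exact_mod_cast hk
  set g : ℝ := J - 4 * I with hg
  have hg0 : 0 < g := by linarith
  obtain ⟨δ1, hδ1, hδ1', h3⟩ := h2 (g / (4 * k)) (by positivity)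
  set A : ℝ := 4 * (I + g / 32) with hAdef
  set Bv : ℝ := J - g / 4 with hB
  have hA0 : 0 < A := by positivity
  have hAB : A < Bv := by
    rw [hAdef, hB]
    linarith
  set δ : ℝ := min δ1 ((Bv - A) / (8 * (A + Bv))) with hδ
  have hAB0 : 0 < A + Bv := by linarith
  have hδ0 : 0 < δ := by
    refine lt_min hδ1 (div_pos (by linarith) (by linarith))
  have hδle : δ ≤ δ1 := min_le_left _ _
  have hδ8 : δ < 1 / 8 := lt_of_le_of_lt hδle hδ1'
  have hδ4 : 0 < 1 - 4 * δ := by linarith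
  obtain ⟨D1, hD1⟩ := h1 δ hδ0 hδ8 (g / 32) (by positivity)
  obtain ⟨D2, hD2⟩ := h3 δ hδ0 hδle
  obtain ⟨x1, hx1⟩ := hD1 (max D1 D2) (le_max_left _ _)
  obtain ⟨x2, hx2⟩ := hD2 (max D1 D2) (le_max_right _ _)
  obtain ⟨v0, hv0⟩ := hV0 k h hA (max D1 D2)
  -- the constant
  have hCA : A / (1 - 4 * δ) < Bv := by
    rw [div_lt_iff₀ hδ4]
    have e1 : δ ≤ (Bv - A) / (8 * (A + Bv)) := min_le_right _ _
    rw [le_div_iff₀ (by linarith)] at e1
    have e2 : 8 * δ * (A + Bv) ≤ Bv - A := by linarith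
    have e3 : 4 * δ * Bv ≤ 4 * δ * (A + Bv) := by
      apply mul_le_mul_of_nonneg_left (by linarith) (by linarith)
    nlinarith
  set Cc : ℝ := A / (1 - 4 * δ) with hCc
  have hCc0 : 0 < Cc := div_pos hA0 hδ4
  have hlog : ∀ᶠ x : ℝ in atTop, Real.log (2 * AA) * Cc / (Bv - Cc) < Real.log x :=
    Real.tendsto_log_atTop.eventually_gt_atTop _
  obtain ⟨x3, hx3⟩ := eventually_atTop.1 hlog
  refine ⟨max (max xP x1) (max (max x2 x3) 2), fun x hx => ?_⟩
  have g1 : xP ≤ x := le_trans (le_trans (le_max_left _ _) (le_max_left _ _)) hx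
  have g2 : x1 ≤ x := le_trans (le_trans (le_max_right _ _) (le_max_left _ _)) hx
  have g3 : x2 ≤ x := le_trans (le_trans (le_trans (le_max_left _ _) (le_max_left _ _))
    (le_max_right _ _)) hx
  have g4 : x3 ≤ x := le_trans (le_trans (le_trans (le_max_right _ _) (le_max_left _ _))
    (le_max_right _ _)) hx
  have g5 : 2 ≤ x := le_trans (le_trans (le_max_right _ _) (le_max_right _ _)) hx
  have hx0 : 0 < x := by linarith
  have hlx : 0 < Real.log x := Real.log_pos (by linarith)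
  have hlR : Real.log (Rx δ x) = (1 - 4 * δ) / 4 * Real.log x := by
    rw [Rx, Real.log_rpow hx0]
    ring
  have hlR0 : 0 < Real.log (Rx δ x) := by
    rw [hlR]
    positivity
  have hN := MAIN_Nn hw k (max D1 D2) (δ := δ) hx0 hlR0
  obtain ⟨l, hl⟩ : ∃ l : Co (Sx (max D1 D2) x) k → ℝ, l = lam aP (yF (Rx δ x) F) := ⟨_, rfl⟩
  have k1 := hx1 x g2 v0 hv0 l hl
  have k2 := fun m => hx2 x g3 v0 hv0 m l hl
  set S : ℝ := S1 w h (max D1 D2) v0 x l l with hS
  set N : ℝ := Nn w k (max D1 D2) δ x with hNdef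
  refine hxP x g1 (max D1 D2) v0 (Sx (max D1 D2) x) l ?_
  have h5 : N * Bv ≤ ∑ m, S2 w h (max D1 D2) v0 x m l l := by
    have e1 : N * Bv = ∑ m, N * (Jm P F m - g / (4 * k)) := by
      rw [← Finset.mul_sum, Finset.sum_sub_distrib, Finset.sum_const, Finset.card_univ,
        Fintype.card_fin, nsmul_eq_mul, hB]
      congr 2
      field_simp
    rw [e1]
    exact Finset.sum_le_sum fun m _ => k2 m
  refine lt_of_lt_of_le ?_ h5
  rw [← hS]
  have e0 : Real.log (2 * AA * x) = Real.log (2 * AA) + Real.log x :=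
    Real.log_mul (by linarith) hx0.ne'
  have hl2 : 0 < Real.log (2 * AA) := Real.log_pos (by linarith)
  have hl2x : 0 < Real.log (2 * AA * x) := by rw [e0]; linarith
  -- log(2x) S log R ≤ log(2x) N (I + g/32)
  have h6 : Real.log (2 * AA * x) * (S * Real.log (Rx δ x)) ≤
      Real.log (2 * AA * x) * (N * (I + g / 32)) := mul_le_mul_of_nonneg_left k1 hl2x.le
  have h7 : Real.log (2 * AA * x) * (N * (I + g / 32)) < N * Bv * Real.log (Rx δ x) := by
    rw [hlR]
    have e1 : Real.log (2 * AA * x) * (N * (I + g / 32)) =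
        N * (Real.log (2 * AA * x) * (A / 4)) := by
      rw [hAdef]
      ring
    have e2 : N * Bv * ((1 - 4 * δ) / 4 * Real.log x) =
        N * (Bv * (1 - 4 * δ) / 4 * Real.log x) := by ring
    rw [e1, e2]
    refine mul_lt_mul_of_pos_left ?_ hN
    have e3 : A = Cc * (1 - 4 * δ) := by
      rw [hCc, div_mul_cancel₀ _ hδ4.ne']
    have e4 : (Real.log (2 * AA) + Real.log x) * Cc < Bv * Real.log x := by
      have e5 := hx3 x g4
      rw [div_lt_iff₀ (by linarith)] at e5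
      nlinarith
    rw [e0, e3]
    have e6 : (Real.log (2 * AA) + Real.log x) * (Cc * (1 - 4 * δ) / 4) =
        ((Real.log (2 * AA) + Real.log x) * Cc) * ((1 - 4 * δ) / 4) := by ring
    have e7 : Bv * (1 - 4 * δ) / 4 * Real.log x = (Bv * Real.log x) * ((1 - 4 * δ) / 4) := by ring
    rw [e6, e7]
    exact mul_lt_mul_of_pos_right e4 (by positivity)
  have h8 : Real.log (2 * AA * x) * S * Real.log (Rx δ x) < N * Bv * Real.log (Rx δ x) := by
    have e1 : Real.log (2 * AA * x) * S * Real.log (Rx δ x) =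
        Real.log (2 * AA * x) * (S * Real.log (Rx δ x)) := by ring
    rw [e1]
    exact lt_of_le_of_lt h6 h7
  exact lt_of_mul_lt_mul_right h8 hlR0.le

end MPb51559.BG.LF
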