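import Pool.Agent.Work.MP_b51559_nt.LF.RS

set_option autoImplicit false

/-!
# Item UPB of block LF
-/

namespace MPb51559.BG.LF

open Finset Filter Topology MeasureTheory
open scoped Classical

theorem UPB_wp_ge (w : ℝ → ℝ) {k : ℕ} (h : Fin k → ℕ × ℕ) (x : ℝ) (n : ℕ) (m : Fin k) :
    w ((lf (h m) n : ℝ) / ((h m).1 * x)) ≤ wp w h x n := by
  unfold wp
  exact le_ciSup (f := fun m : Fin k => w ((lf (h m) n : ℝ) / ((h m).1 * x)))
    (Set.finite_range _).bddAbove m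

theorem UPB_tm_le (w : ℝ → ℝ) (hw : Wt w) {k : ℕ} (h : Fin k → ℕ × ℕ) (hA : AdmL h) (A : ℕ)
    (hAA : ∀ i, (h i).1 ≤ A) (x : ℝ) (hx : 1 ≤ x)
    (m : Fin k) (n : ℕ) : tm w h x m n ≤ Real.log (2 * A * x) * wp w h x n := by
  have hA1 : (1 : ℝ) ≤ A := by
    have := (hA.pos m).trans_le (hAA m)
    exact_mod_cast this
  have hlog : 0 ≤ Real.log (2 * A * x) := Real.log_nonneg (by nlinarith)
  have h1 := UPB_wp_ge w h x n m
  have h0 : 0 ≤ w ((lf (h m) n : ℝ) / ((h m).1 * x)) := hw.nonneg _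
  have hwp : 0 ≤ wp w h x n := h0.trans h1
  by_cases hz : tm w h x m n = 0
  · rw [hz]
    exact mul_nonneg hlog hwp
  · obtain ⟨hp, h2, h3⟩ := RS_tm hw hA x hx m n hz
    unfold tm
    rw [if_pos hp]
    have h4 : (0 : ℝ) < (lf (h m) n : ℝ) := by exact_mod_cast hp.pos
    have h5 : ((h m).1 : ℝ) * x ≤ A * x := by
      have : ((h m).1 : ℝ) ≤ A := by exact_mod_cast hAA m
      nlinarith
    have h6 : Real.log (lf (h m) n : ℝ) ≤ Real.log (2 * A * x) :=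
      Real.log_le_log h4 (by nlinarith)
    exact mul_le_mul h6 h1 h0 hlog

theorem UPB_le (w : ℝ → ℝ) (hw : Wt w) {k : ℕ} (h : Fin k → ℕ × ℕ) (hA : AdmL h) (A : ℕ)
    (hAA : ∀ i, (h i).1 ≤ A) (x : ℝ) (hx : 1 ≤ x)
    (D0 v0 : ℕ) (m : Fin k) (l : Co (Sx D0 x) k → ℝ) :
    S2 w h D0 v0 x m l l ≤ Real.log (2 * A * x) * S1 w h D0 v0 x l l := by
  unfold S2 S1
  rw [Finset.mul_sum]
  refine Finset.sum_le_sum fun n _ => ?_
  have h1 := mul_le_mul_of_nonneg_right (UPB_tm_le w hw h hA A hAA x hx m n)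
    (mul_self_nonneg (Vn h l n))
  rw [mul_assoc (Real.log (2 * A * x))] at h1
  exact h1

theorem prf_UPB (hRS : L_RS) : L_UPB := by
  intro w hw k h hA A hAA
  refine ⟨1, fun x hx D0 v0 m l => ⟨UPB_le w hw h hA A hAA x hx D0 v0 m l, fun l' hl' => ?_⟩⟩
  have h1 := hRS w hw k h hA D0 v0 x hx m l' l'
  rw [hl'] at h1
  rw [← h1]
  exact UPB_le w hw h hA A hAA x hx D0 v0 m l'

end MPb51559.BG.LF
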