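import Pool.Agent.Work.MP_b51559_nt.LF.Util

set_option autoImplicit false

/-!
# Block LF, item INT: from natural to integral constant terms
-/

namespace MPb51559.BG.LF

open Finset Filter Topology
open scoped Classical

theorem INT_coprime {k : ℕ} {a : Fin k → ℕ} {b : Fin k → ℤ}
    (hadm : ∀ p : ℕ, p.Prime → ∃ v : ℤ, ∀ i, ¬ (p : ℤ) ∣ a i * v + b i) (i : Fin k) :
    IsCoprime (a i : ℤ) (b i) := by
  rw [Int.isCoprime_iff_gcd_eq_one]
  by_contra hne
  obtain ⟨p, hp, hpd⟩ := Nat.exists_prime_and_dvd hne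
  obtain ⟨v, hv⟩ := hadm p hp
  apply hv i
  have h1 : (p : ℤ) ∣ (a i : ℤ) := by
    refine dvd_trans ?_ (Int.gcd_dvd_left (a i : ℤ) (b i))
    exact_mod_cast hpd
  have h2 : (p : ℤ) ∣ b i := by
    refine dvd_trans ?_ (Int.gcd_dvd_right (a i : ℤ) (b i))
    exact_mod_cast hpd
  exact dvd_add (h1.mul_right _) h2

theorem INT_indep {k : ℕ} {a : Fin k → ℕ} {b : Fin k → ℤ}
    (hinj : ∀ i j, a i = a j → b i = b j → i = j) (hpos : ∀ i, 0 < a i)
    (hadm : ∀ p : ℕ, p.Prime → ∃ v : ℤ, ∀ i, ¬ (p : ℤ) ∣ a i * v + b i) (i j : Fin k)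
    (hij : i ≠ j) : (a i : ℤ) * b j ≠ a j * b i := by
  intro he
  have h1 : (a i : ℤ) ∣ (a j : ℤ) :=
    (INT_coprime hadm i).dvd_of_dvd_mul_right (Dvd.intro _ he)
  have h2 : (a j : ℤ) ∣ (a i : ℤ) :=
    (INT_coprime hadm j).dvd_of_dvd_mul_right (Dvd.intro _ he.symm)
  have h3 : a i = a j := Nat.dvd_antisymm (Int.natCast_dvd_natCast.1 h1) (Int.natCast_dvd_natCast.1 h2)
  apply hij
  refine hinj i j h3 ?_
  rw [h3] at he
  have h4 : (a j : ℤ) ≠ 0 := by exact_mod_cast (hpos j).ne'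
  exact (mul_left_cancel₀ h4 he).symm

theorem prf_INT : L_INT := by
  intro k hk hT a b hpos hinj hadm
  obtain ⟨M, hM⟩ : ∃ M : ℕ, M = ∑ i, (b i).natAbs := ⟨_, rfl⟩
  have hMb : ∀ i, |b i| ≤ (M : ℤ) := by
    intro i
    rw [Int.abs_eq_natAbs, hM]
    exact_mod_cast Finset.single_le_sum (f := fun i => (b i).natAbs) (fun _ _ => Nat.zero_le _)
      (mem_univ i)
  have hnn : ∀ i, 0 ≤ b i + a i * M := by
    intro i
    have h1 := neg_le_of_abs_le (hMb i)
    have h2 : (1 : ℤ) ≤ a i := by exact_mod_cast hpos i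
    have h3 : (M : ℤ) ≤ a i * M := by nlinarith [Int.natCast_nonneg M]
    linarith
  obtain ⟨h, hh⟩ : ∃ h : Fin k → ℕ × ℕ, h = fun i => (a i, (b i + a i * M).toNat) := ⟨_, rfl⟩
  have hh1 : ∀ i, (h i).1 = a i := fun i => by rw [hh]
  have hh2 : ∀ i, ((h i).2 : ℤ) = b i + a i * M := fun i => by
    rw [hh]
    exact Int.toNat_of_nonneg (hnn i)
  have hlf : ∀ i (n : ℕ), ((lf (h i) n : ℕ) : ℤ) = a i * (n + M : ℕ) + b i := by
    intro i n
    unfold lf
    push_cast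
    rw [hh2 i, hh1 i]
    ring
  have hA : AdmL h := by
    refine ⟨fun i => by rw [hh1 i]; exact hpos i, fun i j hij he => ?_, fun p hp => ?_⟩
    · have h1 : ((h i).1 : ℤ) * (h j).2 = (h j).1 * (h i).2 := by exact_mod_cast he
      rw [hh1, hh1, hh2, hh2] at h1
      apply INT_indep hinj hpos hadm i j hij
      linarith
    · obtain ⟨v, hv⟩ := hadm p hp
      have hp0 : (p : ℤ) ≠ 0 := by exact_mod_cast hp.ne_zero
      refine ⟨((v - M) % p).toNat, fun i hd => hv i ?_⟩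
      have h1 : ((((v - M) % p).toNat : ℕ) : ℤ) = (v - M) % p :=
        Int.toNat_of_nonneg (Int.emod_nonneg _ hp0)
      have h2 : (p : ℤ) ∣ ((lf (h i) ((v - M) % p).toNat : ℕ) : ℤ) := by exact_mod_cast hd
      rw [hlf i, Nat.cast_add, h1] at h2
      have h3 : (p : ℤ) ∣ (v - M) - (v - M) % p := ⟨(v - M) / p, by
        linarith [Int.mul_ediv_add_emod (v - M) p]⟩
      have h4 : (a i : ℤ) * v + b i = (a i * ((v - M) % p + M) + b i) +
          a i * ((v - M) - (v - M) % p) := by ring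
      rw [h4]
      exact dvd_add h2 (h3.mul_left _)
  obtain ⟨x0, hx0⟩ := hT h hA
  refine ⟨⌈x0⌉₊ + 3 * M + 1, fun x hx => ?_⟩
  have hxx : x0 ≤ ((x - M : ℕ) : ℝ) := by
    have h1 : ⌈x0⌉₊ ≤ x - M := by omega
    exact (Nat.le_ceil x0).trans (by exact_mod_cast h1)
  obtain ⟨n, h1, h2, i, j, hij, hi, hj⟩ := hx0 _ hxx
  have h1' : x - M < n := by exact_mod_cast h1
  have h2' : n < 2 * (x - M) := by exact_mod_cast h2
  refine ⟨n + M, by omega, by omega, i, j, hij, lf (h i) n, lf (h j) n, hi, hj, ?_,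
    (hlf i n).symm, (hlf j n).symm⟩
  intro he
  have he' : ((lf (h i) n : ℕ) : ℤ) = ((lf (h j) n : ℕ) : ℤ) := by rw [he]
  rw [hlf i, hlf j] at he'
  have e1 := abs_le.1 (hMb i)
  have e2 := abs_le.1 (hMb j)
  have e3 : (2 * M : ℤ) < ((n + M : ℕ) : ℤ) := by
    have : 2 * M < n + M := by omega
    exact_mod_cast this
  rcases lt_trichotomy (a i) (a j) with h5 | h5 | h5
  · have h6 : (a i : ℤ) + 1 ≤ a j := by exact_mod_cast h5
    nlinarith
  · apply hij
    refine hinj i j h5 ?_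
    rw [h5] at he'
    linarith
  · have h6 : (a j : ℤ) + 1 ≤ a i := by exact_mod_cast h5
    nlinarith

end MPb51559.BG.LF
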