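import Pool.Agent.Work.MP_b51559_nt.LF.Stmts

set_option autoImplicit false

/-! # Block LF: small lemmas -/

namespace MPb51559.BG.LF

open Finset Filter Topology MeasureTheory
open scoped Classical

/-- a number larger than all data -/
def bigN {k : ℕ} (h : Fin k → ℕ × ℕ) : ℕ := (∑ i, ∑ j, (h i).1 * (h j).2) + ∑ i, (h i).1

theorem big_of {k : ℕ} (h : Fin k → ℕ × ℕ) (D0 : ℕ) (hD : bigN h ≤ D0) : Big h D0 := by
  intro i j
  unfold bigN at hD
  have h1 : (h i).1 * (h j).2 ≤ ∑ i, ∑ j, (h i).1 * (h j).2 :=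
    (Finset.single_le_sum (f := fun j => (h i).1 * (h j).2) (fun _ _ => Nat.zero_le _)
      (mem_univ j)).trans
      (Finset.single_le_sum (f := fun i => ∑ j, (h i).1 * (h j).2) (fun _ _ => Nat.zero_le _)
        (mem_univ i))
  have h2 : (h i).1 ≤ ∑ i, (h i).1 :=
    Finset.single_le_sum (f := fun i => (h i).1) (fun _ _ => Nat.zero_le _) (mem_univ i)
  omega

theorem lf_modEq (f : ℕ × ℕ) {a b q : ℕ} (h : a ≡ b [MOD q]) : lf f a ≡ lf f b [MOD q] :=
  (h.mul_left _).add_right _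

/-- a number larger than `D0` divides at most one of the values -/
theorem eq_of_dvd {k : ℕ} {h : Fin k → ℕ × ℕ} (hA : AdmL h) {D0 : ℕ} (hB : Big h D0) {p n : ℕ}
    (hp : D0 < p) {i j : Fin k} (h1 : p ∣ lf (h i) n) (h2 : p ∣ lf (h j) n) : i = j := by
  by_contra hij
  have h3 := hA.indep i j hij
  have h4 : (p : ℤ) ∣ ((h i).1 : ℤ) * (h j).2 - (h j).1 * (h i).2 := by
    have e1 : (p : ℤ) ∣ ((lf (h i) n : ℕ) : ℤ) := by exact_mod_cast h1
    have e2 : (p : ℤ) ∣ ((lf (h j) n : ℕ) : ℤ) := by exact_mod_cast h2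
    have e3 : ((h i).1 : ℤ) * (h j).2 - (h j).1 * (h i).2 =
        (h i).1 * ((lf (h j) n : ℕ) : ℤ) - (h j).1 * ((lf (h i) n : ℕ) : ℤ) := by
      unfold lf
      push_cast
      ring
    rw [e3]
    exact dvd_sub (e2.mul_left _) (e1.mul_left _)
  have h5 : ((h i).1 : ℤ) * (h j).2 - (h j).1 * (h i).2 ≠ 0 := by
    intro h0
    apply h3
    have : ((h i).1 : ℤ) * (h j).2 = (h j).1 * (h i).2 := by linarith
    exact_mod_cast this
  have h6 := Int.le_of_dvd (abs_pos.2 h5) ((dvd_abs _ _).2 h4)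
  have h7 : ((h i).1 : ℤ) * (h j).2 ≤ D0 := by exact_mod_cast (hB i j).1
  have h8 : ((h j).1 : ℤ) * (h i).2 ≤ D0 := by exact_mod_cast (hB j i).1
  have h9 : (0 : ℤ) ≤ ((h i).1 : ℤ) * (h j).2 := by positivity
  have h10 : (0 : ℤ) ≤ ((h j).1 : ℤ) * (h i).2 := by positivity
  have h11 : (D0 : ℤ) < p := by exact_mod_cast hp
  have h12 : |((h i).1 : ℤ) * (h j).2 - (h j).1 * (h i).2| ≤ D0 := by
    rw [abs_le]
    constructor <;> linarith
  linarith

end MPb51559.BG.LF
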