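import Pool.Agent.Work.MP_b51559_nt.LF.Util

set_option autoImplicit false

/-!
# Block LF, item GRM: the Gram matrix of slices whose tops add up to at most 2
-/

namespace MPb51559.BG.LF

open Finset Filter Topology MeasureTheory

theorem GRM_Ev_and {P Q : ℕ → ℝ → Prop} (hP : Ev P) (hQ : Ev Q) :
    Ev (fun D0 x => P D0 x ∧ Q D0 x) := by
  obtain ⟨D1, h1⟩ := hP
  obtain ⟨D2, h2⟩ := hQ
  refine ⟨max D1 D2, fun D0 hD => ?_⟩
  obtain ⟨x1, hx1⟩ := h1 D0 (le_trans (le_max_left _ _) hD)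
  obtain ⟨x2, hx2⟩ := h2 D0 (le_trans (le_max_right _ _) hD)
  exact ⟨max x1 x2, fun x hx => ⟨hx1 x (le_trans (le_max_left _ _) hx),
    hx2 x (le_trans (le_max_right _ _) hx)⟩⟩

theorem GRM_Ev_of {P : ℕ → ℝ → Prop} (D1 : ℕ) (h : ∀ D0 ≥ D1, ∀ᶠ x : ℝ in atTop, P D0 x) :
    Ev P := by
  refine ⟨D1, fun D0 hD => ?_⟩
  obtain ⟨x0, hx0⟩ := eventually_atTop.mp (h D0 hD)
  exact ⟨x0, fun x hx => hx0 x hx⟩

theorem GRM_Ev_mono {P Q : ℕ → ℝ → Prop} (hP : Ev P) (h : ∀ D0 x, P D0 x → Q D0 x) : Ev Q := by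
  obtain ⟨D1, h1⟩ := hP
  refine ⟨D1, fun D0 hD => ?_⟩
  obtain ⟨x1, hx1⟩ := h1 D0 hD
  exact ⟨x1, fun x hx => h D0 x (hx1 x hx)⟩

theorem GRM_stp (a b s : ℝ) : stp 1 (fun _ => a) (fun _ => b) (fun _ => 1) s =
    if a < s ∧ s ≤ b then 1 else 0 := by
  simp [stp]

theorem GRM_slc {S : Finset ℕ} {k : ℕ} (R a b : ℝ) (y : Co S k → ℝ) (r : Co S k) :
    slc R (Set.Ioc a b) y r =
      stp 1 (fun _ => a) (fun _ => b) (fun _ => 1) (sz R r) * y r := by
  rw [GRM_stp]
  unfold slc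
  by_cases h : a < sz R r ∧ sz R r ≤ b
  · rw [if_pos h, if_pos (show sz R r ∈ Set.Ioc a b from h)]; ring
  · rw [if_neg h, if_neg (show ¬ sz R r ∈ Set.Ioc a b from h)]; ring

theorem GRM_GI {k : ℕ} (F : (Fin k → ℝ) → ℝ) (m : Fin k) (a b : ℝ) :
    (∫ t, cutm m (fun t => stp 1 (fun _ => a) (fun _ => b) (fun _ => 1) (so m t) ^ 2 *
      marg F m t ^ 2) t) = GI F m a b := by
  unfold GI
  refine integral_congr_ae (Eventually.of_forall fun t => ?_)
  simp only [cutm]
  by_cases h : 0 ≤ t m ∧ t m < 1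
  · rw [if_pos h, if_pos h, GRM_stp]
    by_cases h2 : a < so m t ∧ so m t ≤ b
    · rw [if_pos h2, if_pos h2]; ring
    · rw [if_neg h2, if_neg h2]; ring
  · rw [if_neg h, if_neg h]

theorem GRM_kap_pos (D0 : ℕ) : 0 < kap D0 := by
  unfold kap
  have h1 : 0 < primorial D0 := primorial_pos D0
  have h2 : 0 < (primorial D0).totient := Nat.totient_pos.mpr h1
  positivity

theorem GRM_kap_le (D0 : ℕ) : kap D0 ≤ 1 := by
  unfold kap
  have h1 : 0 < primorial D0 := primorial_pos D0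
  rw [div_le_one (by exact_mod_cast h1)]
  exact_mod_cast Nat.totient_le _

theorem GRM_logR (δ x : ℝ) (hx : 0 < x) : Real.log (Rx δ x) = (1 / 4 - δ) * Real.log x := by
  unfold Rx
  rw [Real.log_rpow hx]

/-- the error `x / log x` is small against the main term -/
theorem GRM_small (w : ℝ → ℝ) (hw : Wt w) (k D0 : ℕ) (δ : ℝ) (hδ : δ < 1 / 8) (ε : ℝ)
    (hε : 0 < ε) : ∀ᶠ x : ℝ in atTop, x / Real.log x ≤ ε * Nn w k D0 δ x := by
  have hκ := GRM_kap_pos D0
  have hW : (0 : ℝ) < (primorial D0 : ℝ) := by exact_mod_cast primorial_pos D0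
  have hI := hw.pos
  set c1 : ℝ := (∫ u, w u) / (primorial D0 : ℝ) with hc1
  have hc1p : 0 < c1 := div_pos hI hW
  have hd : 0 < 1 / 4 - δ := by linarith
  have h1 : ∀ᶠ x : ℝ in atTop, 1 / (kap D0 * (1 / 4 - δ)) ≤ Real.log x :=
    Real.tendsto_log_atTop.eventually_ge_atTop _
  have h2 : ∀ᶠ x : ℝ in atTop, 1 ≤ Real.log x := Real.tendsto_log_atTop.eventually_ge_atTop _
  have h3 : ∀ᶠ x : ℝ in atTop, 1 / (ε * c1 * (1 / 4 - δ)) ≤ Real.log x :=
    Real.tendsto_log_atTop.eventually_ge_atTop _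
  filter_upwards [h1, h2, h3, eventually_gt_atTop (0 : ℝ)] with x hx1 hx2 hx3 hx0
  have hlk : 1 ≤ lk D0 δ x := by
    unfold lk
    rw [GRM_logR δ x hx0]
    rw [div_le_iff₀ (by positivity)] at hx1
    nlinarith
  have hpow : 1 ≤ lk D0 δ x ^ k := one_le_pow₀ hlk
  have hLpos : 0 < Real.log x := by linarith
  have hR : Real.log (Rx δ x) = (1 / 4 - δ) * Real.log x := GRM_logR δ x hx0
  have hNn : x * c1 * ((1 / 4 - δ) * Real.log x) ≤ Nn w k D0 δ x := by
    unfold Nn
    rw [hR]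
    have e1 : x * (∫ u, w u) / (primorial D0 : ℝ) = x * c1 := by rw [hc1]; ring
    rw [e1]
    have : 0 ≤ x * c1 * ((1 / 4 - δ) * Real.log x) := by positivity
    nlinarith
  have h4 : 1 ≤ ε * c1 * (1 / 4 - δ) * Real.log x := by
    rw [div_le_iff₀ (by positivity)] at hx3
    linarith
  have h5 : x / Real.log x ≤ ε * (x * c1 * ((1 / 4 - δ) * Real.log x)) := by
    rw [div_le_iff₀ hLpos]
    have h6 : 1 ≤ ε * c1 * (1 / 4 - δ) * Real.log x * Real.log x := by nlinarith
    nlinarith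
  exact h5.trans (mul_le_mul_of_nonneg_left hNn hε.le)

/-- colourings with the same support have the same size -/
theorem GRM_sz {S : Finset ℕ} {k : ℕ} (R : ℝ) (r s : Co S k)
    (h : ∀ p, r p = none ↔ s p = none) : sz R r = sz R s := by
  have : nrm r = nrm s := by
    unfold nrm
    refine Finset.prod_congr rfl fun p _ => ?_
    by_cases hr : r p = none
    · rw [if_pos hr, if_pos ((h p).mp hr)]
    · rw [if_neg hr, if_neg (fun hs => hr ((h p).mpr hs))]
  unfold sz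
  rw [this]

theorem GRM_th_nonneg (w : ℝ → ℝ) (hw : Wt w) (x : ℝ) : 0 ≤ thW w x 1 0 := by
  unfold thW
  refine Finset.sum_nonneg fun p hp => ?_
  have hp' := (Finset.mem_filter.mp hp).2.1
  exact mul_nonneg (Real.log_nonneg (by exact_mod_cast hp'.one_lt.le)) (hw.nonneg _)

theorem prf_GRM (hS2B : L_S2B) (hQO : C_QO) (hYM : C_YM) (hGRA : C_GRA) (hPNT : PNTW) : L_GRM := by
  intro w hw k h hk hinj T F hT1 hT2 hF δ hδ hδ8 a b a' b' hbb ε hε
  obtain ⟨C, hC0, hYM'⟩ := hYM k T F hT1 hT2 hF δ hδ hδ8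
  have hI := hw.pos
  -- constants
  set G : ℝ := ∑ m : Fin k, |GI F m a b| with hG
  have hG0 : 0 ≤ G := Finset.sum_nonneg fun m _ => abs_nonneg _
  set η : ℝ := min (∫ u, w u) ((∫ u, w u) * (ε / (3 * (G + 1)))) with hη
  have hηpos : 0 < η := lt_min hI (by positivity)
  have hη1 : η ≤ ∫ u, w u := min_le_left _ _
  have hη2 : η ≤ (∫ u, w u) * (ε / (3 * (G + 1))) := min_le_right _ _
  have E1 := hYM' 1 one_pos
  have E2 := hGRA k T F hT1 hT2 hF δ hδ hδ8 1 (fun _ => a) (fun _ => b) (fun _ => 1) (ε / 6)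
    (by positivity)
  set D1 : ℕ := max 3 (bigN h) with hD1
  have hhD : ∀ D0 ≥ D1, Big h D0 := fun D0 hD => big_of h D0 (le_trans (le_max_right _ _) hD)
  have hth1 : ∀ᶠ x : ℝ in atTop, ∀ m : Fin k,
      |thW w ((h m).1 * x) 1 0 / (h m).1 / x - ∫ u, w u| < η := by
    rw [eventually_all]
    intro m
    have ha : (0 : ℝ) < (h m).1 := by exact_mod_cast hinj.pos m
    have e1 := (Metric.tendsto_nhds.mp (hPNT w hw)) η hηpos
    have e2 : Tendsto (fun x : ℝ => ((h m).1 : ℝ) * x) atTop atTop :=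
      tendsto_id.const_mul_atTop ha
    filter_upwards [e2.eventually e1] with x hx
    rw [Real.dist_eq] at hx
    rw [div_div]
    exact hx
  have E3 : Ev fun D0 x => 3 ≤ D0 ∧ 0 < x ∧ 1 ≤ Real.log x ∧ C * lk D0 δ x ≤ Real.log x ^ 2 ∧
      x / Real.log x ≤ ε / 3 * Nn w k D0 δ x ∧
      (∀ m : Fin k, |thW w ((h m).1 * x) 1 0 / (h m).1 / x - ∫ u, w u| < η) ∧
      (∀ v0 : ℕ, (∀ i, (lf (h i) v0).Coprime (primorial D0)) →
        ∀ (m : Fin k) (y y' : Co (Sx D0 x) k → ℝ) (s s' : ℝ), 0 ≤ s → 0 ≤ s' → s + s' ≤ 2 →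
        (∀ r, |y r| ≤ Real.log x ^ 2) → (∀ r, |y' r| ≤ Real.log x ^ 2) →
        (∀ r, y r ≠ 0 → NoC m r ∧ sz (Rx δ x) r ≤ s) →
        (∀ r, y' r ≠ 0 → NoC m r ∧ sz (Rx δ x) r ≤ s') →
        |S2 w h D0 v0 x m (lam aF y) (lam aF y') -
          thW w ((h m).1 * x) 1 0 / ((h m).1 * ((primorial D0).totient : ℝ)) *
            Qf aF (lam aF y) (lam aF y')| ≤ x / Real.log x) := by
    refine GRM_Ev_of D1 fun D0 hD => ?_
    have hD3 : 3 ≤ D0 := le_trans (le_max_left _ _) hD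
    obtain ⟨x0, hx0⟩ := hS2B w hw k h hinj δ hδ hδ8 D0 hD3 (hhD D0 hD)
    have hκ := GRM_kap_pos D0
    have hκ1 := GRM_kap_le D0
    filter_upwards [eventually_ge_atTop x0, eventually_gt_atTop (0 : ℝ),
      Real.tendsto_log_atTop.eventually_ge_atTop 1, Real.tendsto_log_atTop.eventually_ge_atTop C,
      GRM_small w hw k D0 δ hδ8 (ε / 3) (by positivity),
      hth1] with x h1 h2 h3 h4 h5 h6
    refine ⟨hD3, h2, h3, ?_, h5, h6, fun v0 hv => hx0 x h1 v0 hv⟩
    · unfold lk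
      rw [GRM_logR δ x h2]
      have e1 : kap D0 * ((1 / 4 - δ) * Real.log x) ≤ Real.log x := by
        have h8 : (1 / 4 - δ) * Real.log x ≤ Real.log x := by nlinarith
        have h9 : 0 ≤ (1 / 4 - δ) * Real.log x := mul_nonneg (by linarith) (by linarith)
        nlinarith
      have e2 : 0 ≤ kap D0 * ((1 / 4 - δ) * Real.log x) :=
        mul_nonneg hκ.le (mul_nonneg (by linarith) (by linarith))
      calc C * (kap D0 * ((1 / 4 - δ) * Real.log x)) ≤ C * Real.log x :=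
            mul_le_mul_of_nonneg_left e1 hC0
        _ ≤ Real.log x * Real.log x := mul_le_mul_of_nonneg_right h4 (by linarith)
        _ = Real.log x ^ 2 := by ring
  refine GRM_Ev_mono (GRM_Ev_and E1 (GRM_Ev_and E2 E3)) ?_
  rintro D0 x ⟨hA, hB, hD3, hx, hlog, hCl, hsm, hth', hS⟩ v0 hv0 m
  have hth := hth' m
  have hφ : (0 : ℝ) < ((primorial D0).totient : ℝ) := by
    exact_mod_cast Nat.totient_pos.mpr (primorial_pos D0)
  have hW : (0 : ℝ) < (primorial D0 : ℝ) := by exact_mod_cast primorial_pos D0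
  -- the slices
  have hbd : ∀ (c d : ℝ) (r : Co (Sx D0 x) k),
      |slc (Rx δ x) (Set.Ioc c d) (ym (S := Sx D0 x) (Rx δ x) F m) r| ≤ Real.log x ^ 2 := by
    intro c d r
    unfold slc
    split_ifs
    · exact ((hA m r).1).trans hCl
    · rw [abs_zero]; positivity
  have hsp : ∀ (c d : ℝ) (r : Co (Sx D0 x) k),
      slc (Rx δ x) (Set.Ioc c d) (ym (S := Sx D0 x) (Rx δ x) F m) r ≠ 0 →
      NoC m r ∧ sz (Rx δ x) r ≤ max 0 (min d T) := by
    intro c d r hr
    unfold slc at hr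
    split_ifs at hr with hmem
    · obtain ⟨h1, h2⟩ := (hA m r).2.1 hr
      exact ⟨h1, le_max_of_le_right (le_min hmem.2 h2)⟩
    · exact absurd rfl hr
  have hss : max 0 (min b T) + max 0 (min b' T) ≤ 2 := by
    rcases le_total b 0 with h1 | h1
    · have : max 0 (min b T) = 0 := max_eq_left (le_trans (min_le_left _ _) h1)
      rw [this]
      have : max 0 (min b' T) ≤ 2 := max_le (by norm_num) (le_trans (min_le_right _ _) hT2.le)
      linarith
    · rcases le_total b' 0 with h2 | h2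
      · have : max 0 (min b' T) = 0 := max_eq_left (le_trans (min_le_left _ _) h2)
        rw [this]
        have : max 0 (min b T) ≤ 2 := max_le (by norm_num) (le_trans (min_le_right _ _) hT2.le)
        linarith
      · have e1 : max 0 (min b T) ≤ b := max_le h1 (min_le_left _ _)
        have e2 : max 0 (min b' T) ≤ b' := max_le h2 (min_le_left _ _)
        linarith
  have hS2 := hS v0 hv0 m (slc (Rx δ x) (Set.Ioc a b) (ym (S := Sx D0 x) (Rx δ x) F m))
    (slc (Rx δ x) (Set.Ioc a' b') (ym (S := Sx D0 x) (Rx δ x) F m)) _ _ (le_max_left _ _) (le_max_left _ _) hss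
    (hbd a b) (hbd a' b') (hsp a b) (hsp a' b')
  rw [← div_div] at hS2
  have hth0 : 0 ≤ thW w ((h m).1 * x) 1 0 / (h m).1 :=
    div_nonneg (GRM_th_nonneg w hw _) (Nat.cast_nonneg _)
  obtain ⟨θ, hθ⟩ : ∃ θ : ℝ, θ = thW w ((h m).1 * x) 1 0 / (h m).1 := ⟨_, rfl⟩
  rw [← hθ] at hS2 hth0 hth
  have hNn0 : 0 ≤ Nn w k D0 δ x := by
    have h7 : 0 < x / Real.log x := div_pos hx (by linarith)
    have h8 : 0 < ε / 3 * Nn w k D0 δ x := lt_of_lt_of_le h7 hsm
    by_contra hneg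
    push Not at hneg
    nlinarith
  constructor
  · -- disjoint slices
    intro hdis
    have hQ : Qf aF (lam aF (slc (Rx δ x) (Set.Ioc a b) (ym (S := Sx D0 x) (Rx δ x) F m)))
        (lam aF (slc (Rx δ x) (Set.Ioc a' b') (ym (S := Sx D0 x) (Rx δ x) F m))) = 0 := by
      refine hQO (Sx D0 x) k aF ?_ _ _ ?_
      · intro p hp
        have hp' := (Finset.mem_filter.mp hp).2
        have : 4 ≤ p := by omega
        have h4 : (4 : ℝ) ≤ p := by exact_mod_cast this
        simp only [aF]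
        linarith
      · intro r s hrs
        unfold slc
        rw [← GRM_sz (Rx δ x) r s hrs]
        by_cases h1 : sz (Rx δ x) r ∈ Set.Ioc a b
        · by_cases h2 : sz (Rx δ x) r ∈ Set.Ioc a' b'
          · exact absurd h2 (Set.disjoint_left.mp hdis h1)
          · rw [if_neg h2, mul_zero]
        · rw [if_neg h1, zero_mul]
    rw [hQ, mul_zero, sub_zero] at hS2
    refine hS2.trans (hsm.trans ?_)
    nlinarith
  · -- equal slices
    intro haa hbb'
    subst haa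
    subst hbb'
    have hQ := hB m (slc (Rx δ x) (Set.Ioc a b) (ym (S := Sx D0 x) (Rx δ x) F m))
      (fun r => GRM_slc (Rx δ x) a b (ym (S := Sx D0 x) (Rx δ x) F m) r)
    rw [GRM_GI F m a b] at hQ
    set q : ℝ := lk D0 δ x ^ k * Real.log (Rx δ x) / (primorial D0 : ℝ) with hq
    have hlkq : θ / ((primorial D0).totient : ℝ) * lk D0 δ x ^ (k + 1) =
        θ * q := by
      rw [hq, pow_succ]
      have : lk D0 δ x = ((primorial D0).totient : ℝ) / (primorial D0 : ℝ) *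
          Real.log (Rx δ x) := rfl
      rw [mul_comm (lk D0 δ x ^ k) (lk D0 δ x)]
      nth_rewrite 1 [this]
      field_simp
    have hNq : Nn w k D0 δ x = x * (∫ u, w u) * q := by
      unfold Nn
      rw [hq]
      ring
    have hq0 : 0 ≤ q := by
      rw [hNq] at hNn0
      exact nonneg_of_mul_nonneg_right hNn0 (mul_pos hx hI)
    have hthx : |θ - x * ∫ u, w u| ≤ η * x := by
      have h1 : θ - x * ∫ u, w u = (θ / x - ∫ u, w u) * x := by
        field_simp
      rw [h1, abs_mul, abs_of_pos hx]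
      exact mul_le_mul_of_nonneg_right hth.le hx.le
    -- second difference
    have hd2 : |θ / ((primorial D0).totient : ℝ) *
        Qf aF (lam aF (slc (Rx δ x) (Set.Ioc a b) (ym (S := Sx D0 x) (Rx δ x) F m)))
          (lam aF (slc (Rx δ x) (Set.Ioc a b) (ym (S := Sx D0 x) (Rx δ x) F m))) -
        θ * q * GI F m a b| ≤ ε / 3 * Nn w k D0 δ x := by
      have e1 : θ / ((primorial D0).totient : ℝ) *
        Qf aF (lam aF (slc (Rx δ x) (Set.Ioc a b) (ym (S := Sx D0 x) (Rx δ x) F m)))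
          (lam aF (slc (Rx δ x) (Set.Ioc a b) (ym (S := Sx D0 x) (Rx δ x) F m))) -
        θ * q * GI F m a b = θ / ((primorial D0).totient : ℝ) *
          (Qf aF (lam aF (slc (Rx δ x) (Set.Ioc a b) (ym (S := Sx D0 x) (Rx δ x) F m)))
          (lam aF (slc (Rx δ x) (Set.Ioc a b) (ym (S := Sx D0 x) (Rx δ x) F m))) -
          lk D0 δ x ^ (k + 1) * GI F m a b) := by
        rw [← hlkq]; ring
      have hc : 0 ≤ θ / ((primorial D0).totient : ℝ) := div_nonneg hth0 hφ.le
      rw [e1, abs_mul, abs_of_nonneg hc]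
      refine (mul_le_mul_of_nonneg_left hQ hc).trans ?_
      have e2 : θ / ((primorial D0).totient : ℝ) * (ε / 6 * lk D0 δ x ^ (k + 1)) =
          ε / 6 * (θ * q) := by rw [← hlkq]; ring
      rw [e2, hNq]
      have e3 : θ ≤ 2 * (x * ∫ u, w u) := by
        have := (abs_le.mp hthx).2
        have h9 : η * x ≤ (∫ u, w u) * x := mul_le_mul_of_nonneg_right hη1 hx.le
        linarith
      have e4 : θ * q ≤ 2 * (x * ∫ u, w u) * q := mul_le_mul_of_nonneg_right e3 hq0
      calc ε / 6 * (θ * q) ≤ ε / 6 * (2 * (x * ∫ u, w u) * q) :=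
            mul_le_mul_of_nonneg_left e4 (by positivity)
        _ = ε / 3 * (x * (∫ u, w u) * q) := by ring
    have hd3 : |θ * q * GI F m a b - Nn w k D0 δ x * GI F m a b| ≤
        ε / 3 * Nn w k D0 δ x := by
      have e1 : θ * q * GI F m a b - Nn w k D0 δ x * GI F m a b =
          (θ - x * ∫ u, w u) * (q * GI F m a b) := by rw [hNq]; ring
      rw [e1, abs_mul, abs_mul, abs_of_nonneg hq0]
      have hGm : |GI F m a b| ≤ G + 1 := by
        have := Finset.single_le_sum (f := fun m : Fin k => |GI F m a b|)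
          (fun j _ => abs_nonneg _) (Finset.mem_univ m)
        linarith
      have e2 : |θ - x * ∫ u, w u| * (q * |GI F m a b|) ≤
          (η * x) * (q * (G + 1)) := by
        refine mul_le_mul hthx (mul_le_mul_of_nonneg_left hGm hq0) (by positivity) (by positivity)
      refine e2.trans ?_
      rw [hNq]
      have e3 : η * (G + 1) ≤ (∫ u, w u) * (ε / 3) := by
        have h9 : η * (G + 1) ≤ (∫ u, w u) * (ε / (3 * (G + 1))) * (G + 1) :=
          mul_le_mul_of_nonneg_right hη2 (by linarith)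
        have h10 : (∫ u, w u) * (ε / (3 * (G + 1))) * (G + 1) = (∫ u, w u) * (ε / 3) := by
          have : G + 1 ≠ 0 := by linarith
          field_simp
        linarith
      have e4 : 0 ≤ x * q := mul_nonneg hx.le hq0
      nlinarith [mul_le_mul_of_nonneg_right e3 e4]
    have hfin := abs_sub_le (S2 w h D0 v0 x m (lsl D0 δ x F m a b) (lsl D0 δ x F m a b))
      (θ / ((primorial D0).totient : ℝ) *
        Qf aF (lam aF (slc (Rx δ x) (Set.Ioc a b) (ym (S := Sx D0 x) (Rx δ x) F m)))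
          (lam aF (slc (Rx δ x) (Set.Ioc a b) (ym (S := Sx D0 x) (Rx δ x) F m)))) (Nn w k D0 δ x * GI F m a b)
    have hfin2 := abs_sub_le (θ / ((primorial D0).totient : ℝ) *
        Qf aF (lam aF (slc (Rx δ x) (Set.Ioc a b) (ym (S := Sx D0 x) (Rx δ x) F m)))
          (lam aF (slc (Rx δ x) (Set.Ioc a b) (ym (S := Sx D0 x) (Rx δ x) F m))))
      (θ * q * GI F m a b) (Nn w k D0 δ x * GI F m a b)
    have hS2' : |S2 w h D0 v0 x m (lsl D0 δ x F m a b) (lsl D0 δ x F m a b) -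
        θ / ((primorial D0).totient : ℝ) *
        Qf aF (lam aF (slc (Rx δ x) (Set.Ioc a b) (ym (S := Sx D0 x) (Rx δ x) F m)))
          (lam aF (slc (Rx δ x) (Set.Ioc a b) (ym (S := Sx D0 x) (Rx δ x) F m)))| ≤ ε / 3 * Nn w k D0 δ x :=
      hS2.trans hsm
    linarith

end MPb51559.BG.LF
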