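import Pool.Agent.Work.MP_b51559_nt.LF.Stmts

set_option autoImplicit false

/-!
# Part C, item LIN: S2 is a symmetric positive semidefinite bilinear form
-/

namespace MPb51559.BG.LF

open Finset Filter Topology MeasureTheory
open scoped Classical

theorem LIN_add {S : Finset ℕ} {k : ℕ} (h : Fin k → ℕ × ℕ) (l l' : Co S k → ℝ) (n : ℕ) :
    Vn h (l + l') n = Vn h l n + Vn h l' n := by
  simp only [Vn, Pi.add_apply, Finset.sum_add_distrib]

theorem LIN_smul {S : Finset ℕ} {k : ℕ} (h : Fin k → ℕ × ℕ) (c : ℝ) (l : Co S k → ℝ) (n : ℕ) :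
    Vn h (c • l) n = c * Vn h l n := by
  simp only [Vn, Pi.smul_apply, smul_eq_mul, Finset.mul_sum]

theorem LIN_tm (w : ℝ → ℝ) (hw : Wt w) {k : ℕ} (h : Fin k → ℕ × ℕ) (x : ℝ) (m : Fin k) (n : ℕ) :
    0 ≤ tm w h x m n := by
  unfold tm
  split_ifs with hp
  · refine mul_nonneg (Real.log_nonneg ?_) (hw.nonneg _)
    have h1 : 1 ≤ lf (h m) n := hp.one_lt.le
    exact_mod_cast h1
  · exact le_rfl

theorem prf_LIN : L_LIN := by
  intro w hw k h D0 v0 x S m
  refine ⟨LinearMap.mk₂ ℝ (fun l l' => S2 w h D0 v0 x m l l') ?_ ?_ ?_ ?_, ?_, ?_, ?_, ?_⟩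
  · intro l l' l''
    simp only [S2, LIN_add, ← Finset.sum_add_distrib]
    exact Finset.sum_congr rfl fun n _ => by ring
  · intro c l l'
    simp only [S2, LIN_smul, smul_eq_mul, Finset.mul_sum]
    exact Finset.sum_congr rfl fun n _ => by ring
  · intro l l' l''
    simp only [S2, LIN_add, ← Finset.sum_add_distrib]
    exact Finset.sum_congr rfl fun n _ => by ring
  · intro c l l'
    simp only [S2, LIN_smul, smul_eq_mul, Finset.mul_sum]
    exact Finset.sum_congr rfl fun n _ => by ring
  · intro l l'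
    rfl
  · intro u v
    show S2 w h D0 v0 x m u v = S2 w h D0 v0 x m v u
    simp only [S2]
    exact Finset.sum_congr rfl fun n _ => by ring
  · intro v
    show 0 ≤ S2 w h D0 v0 x m v v
    simp only [S2]
    exact Finset.sum_nonneg fun n _ => mul_nonneg (LIN_tm w hw h x m n) (mul_self_nonneg _)
  · intro a y y' c
    constructor
    · funext d
      simp only [lam, Pi.add_apply]
      rw [← mul_add, ← Finset.sum_add_distrib]
      congr 1
      exact Finset.sum_congr rfl fun r _ => by ring
    · funext d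
      simp only [lam, Pi.smul_apply, smul_eq_mul]
      rw [Finset.mul_sum, Finset.mul_sum, Finset.mul_sum]
      exact Finset.sum_congr rfl fun r _ => by ring

end MPb51559.BG.LF
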