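import Pool.Agent.Work.MP_b51559_nt.LF.Stmts

set_option autoImplicit false

/-! # Part C, item S2A: the prime side -/

namespace MPb51559.BG.LF

open Finset Filter Topology MeasureTheory
open scoped Classical

/-! ### eventual statements -/

theorem S2A_Ev_and {P Q : ℕ → ℝ → Prop} (h1 : Ev P) (h2 : Ev Q) :
    Ev (fun D0 x => P D0 x ∧ Q D0 x) := by
  obtain ⟨D1, h1⟩ := h1
  obtain ⟨D2, h2⟩ := h2
  refine ⟨max D1 D2, fun D0 hD0 => ?_⟩
  obtain ⟨x1, hx1⟩ := h1 D0 (le_trans (le_max_left _ _) hD0)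
  obtain ⟨x2, hx2⟩ := h2 D0 (le_trans (le_max_right _ _) hD0)
  exact ⟨max x1 x2, fun x hx => ⟨hx1 x (le_trans (le_max_left _ _) hx),
    hx2 x (le_trans (le_max_right _ _) hx)⟩⟩

theorem S2A_Ev_mono {P Q : ℕ → ℝ → Prop} (h : ∀ D0 x, P D0 x → Q D0 x) (h1 : Ev P) : Ev Q := by
  obtain ⟨D1, h1⟩ := h1
  refine ⟨D1, fun D0 hD0 => ?_⟩
  obtain ⟨x1, hx1⟩ := h1 D0 hD0
  exact ⟨x1, fun x hx => h _ _ (hx1 x hx)⟩

theorem S2A_Ev_fin {ι : Type} [Fintype ι] {P : ι → ℕ → ℝ → Prop} (h : ∀ i, Ev (P i)) :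
    Ev (fun D0 x => ∀ i, P i D0 x) := by
  choose D1 hD1 using h
  refine ⟨univ.sup D1, fun D0 hD0 => ?_⟩
  have h2 : ∀ i, ∃ x0 : ℝ, ∀ x ≥ x0, P i D0 x := fun i =>
    hD1 i D0 (le_trans (Finset.le_sup (f := D1) (mem_univ i)) hD0)
  choose x0 hx0 using h2
  obtain ⟨B, hB⟩ := (Set.finite_range x0).bddAbove
  exact ⟨B, fun x hx i => hx0 i x (le_trans (hB ⟨i, rfl⟩) hx)⟩

theorem S2A_Ev_lt (L : ℕ) {P : ℕ → ℕ → ℝ → Prop} (h : ∀ i < L, Ev (P i)) :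
    Ev (fun D0 x => ∀ i < L, P i D0 x) := by
  have h1 := S2A_Ev_fin (P := fun i : Fin L => P i) (fun i => h i i.2)
  exact S2A_Ev_mono (fun D0 x hx i hi => hx ⟨i, hi⟩) h1

theorem S2A_Ev_lt2 (L : ℕ) {C : ℕ → ℕ → Prop} {P : ℕ → ℕ → ℕ → ℝ → Prop}
    (h : ∀ i < L, ∀ j < L, C i j → Ev (P i j)) :
    Ev (fun D0 x => ∀ i < L, ∀ j < L, C i j → P i j D0 x) := by
  refine S2A_Ev_lt L (P := fun i D0 x => ∀ j < L, C i j → P i j D0 x) (fun i hi => ?_)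
  refine S2A_Ev_lt L (P := fun j D0 x => C i j → P i j D0 x) (fun j hj => ?_)
  by_cases hC : C i j
  · exact S2A_Ev_mono (fun D0 x hx _ => hx) (h i hi j hj hC)
  · exact ⟨0, fun D0 _ => ⟨0, fun x _ hc => absurd hc hC⟩⟩

theorem S2A_Ev_base : Ev (fun D0 x => 3 ≤ D0 ∧ 1 < x) :=
  ⟨3, fun _ hD0 => ⟨2, fun _ hx => ⟨hD0, lt_of_lt_of_le one_lt_two hx⟩⟩⟩

theorem S2A_disj {a b a' b' : ℝ} (h : b ≤ a') : Disjoint (Set.Ioc a b) (Set.Ioc a' b') := by
  rw [Set.disjoint_left]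
  intro s hs hs'
  exact absurd (lt_of_le_of_lt (hs.2.trans h) hs'.1) (lt_irrefl s)

/-! ### size of the main term -/

theorem S2A_Nn_pos {w : ℝ → ℝ} (hw : Wt w) (k D0 : ℕ) {δ x : ℝ} (hδ : δ < 1 / 8) (hx : 1 < x) :
    0 < Nn w k D0 δ x := by
  have h0 : 0 < x := lt_trans one_pos hx
  have hR : 1 < Rx δ x := Real.one_lt_rpow hx (by linarith)
  have hlog : 0 < Real.log (Rx δ x) := Real.log_pos hR
  have hW : 0 < (primorial D0 : ℝ) := Nat.cast_pos.2 (primorial_pos D0)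
  have hk : 0 < kap D0 := by
    unfold kap
    exact div_pos (Nat.cast_pos.2 (Nat.totient_pos.2 (primorial_pos D0))) hW
  unfold Nn lk
  have h1 := hw.pos
  positivity

/-! ### Gram conditions -/

section gram
variable {w : ℝ → ℝ} {k : ℕ} {h : Fin k → ℕ × ℕ} {F : (Fin k → ℝ) → ℝ}

theorem S2A_dis (hG : GramConcl w h F) {δ : ℝ} (hδ0 : 0 < δ) (hδ1 : δ < 1 / 8)
    {a b a' b' : ℝ} (hbb : b + b' ≤ 2) (hd : Disjoint (Set.Ioc a b) (Set.Ioc a' b'))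
    {η : ℝ} (hη : 0 < η) (m : Fin k) :
    Ev fun D0 x => ∀ v0 : ℕ, (∀ i, (lf (h i) v0).Coprime (primorial D0)) →
      |S2 w h D0 v0 x m (lsl D0 δ x F m a b) (lsl D0 δ x F m a' b')| ≤ η * Nn w k D0 δ x :=
  S2A_Ev_mono (fun _ _ hx v0 hv => (hx v0 hv m).1 hd) (hG δ hδ0 hδ1 a b a' b' hbb η hη)

theorem S2A_same (hG : GramConcl w h F) {δ : ℝ} (hδ0 : 0 < δ) (hδ1 : δ < 1 / 8)
    {a b : ℝ} (hbb : b + b ≤ 2) {η : ℝ} (hη : 0 < η) (m : Fin k) :
    Ev fun D0 x => ∀ v0 : ℕ, (∀ i, (lf (h i) v0).Coprime (primorial D0)) →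
      |S2 w h D0 v0 x m (lsl D0 δ x F m a b) (lsl D0 δ x F m a b) -
        Nn w k D0 δ x * GI F m a b| ≤ η * Nn w k D0 δ x :=
  S2A_Ev_mono (fun _ _ hx v0 hv => (hx v0 hv m).2 rfl rfl) (hG δ hδ0 hδ1 a b a b hbb η hη)

end gram

/-! ### the upper bound for the sums of slices -/

/-- `lam a` as a linear map -/
noncomputable def S2A_lin {S : Finset ℕ} {k : ℕ} (a : ℕ → ℝ)
    (h : ∀ (y y' : Co S k → ℝ) (c : ℝ), lam a (y + y') = lam a y + lam a y' ∧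
      lam a (c • y) = c • lam a y) : (Co S k → ℝ) →ₗ[ℝ] (Co S k → ℝ) where
  toFun := lam a
  map_add' y y' := (h y y' 0).1
  map_smul' c y := (h y y c).2

theorem S2A_stp {S : Finset ℕ} {k : ℕ} (R : ℝ) (Y : Co S k → ℝ) (n : ℕ) (oa ob ia ib τ : ℕ → ℝ) :
    (∑ j ∈ range n, (slc R (Set.Ioc (oa j) (ob j)) Y + τ j • slc R (Set.Ioc (ia j) (ib j)) Y)) =
      fun r => stp (n + n) (fun j => if j < n then oa j else ia (j - n))
        (fun j => if j < n then ob j else ib (j - n)) (fun j => if j < n then 1 else τ (j - n))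
        (sz R r) * Y r := by
  funext r
  rw [Finset.sum_apply]
  unfold stp
  rw [Finset.sum_range_add, add_mul, Finset.sum_mul, Finset.sum_mul, ← Finset.sum_add_distrib]
  refine Finset.sum_congr rfl (fun j hj => ?_)
  have hj' : j < n := Finset.mem_range.1 hj
  have h2 : ¬ n + j < n := by omega
  have h3 : n + j - n = j := by omega
  simp only [hj', h2, h3, if_true, if_false, Pi.add_apply, Pi.smul_apply, smul_eq_mul, slc,
    Set.mem_Ioc]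
  congr 1
  · by_cases hc : oa j < sz R r ∧ sz R r ≤ ob j
    · rw [if_pos hc, if_pos hc]
      ring
    · rw [if_neg hc, if_neg hc]
      ring
  · by_cases hc : ia j < sz R r ∧ sz R r ≤ ib j
    · rw [if_pos hc, if_pos hc]
      ring
    · rw [if_neg hc, if_neg hc]
      ring

theorem S2A_zmono {P : Sl} (hP : P.Ok) : ∀ i j : ℕ, i ≤ j → j ≤ P.L → P.z i ≤ P.z j := by
  intro i j hij
  induction j, hij using Nat.le_induction with
  | base => intro _; exact le_rfl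
  | succ n hn ih =>
      intro hL
      exact (ih (by omega)).trans (hP.zmono n (by omega)).le

theorem S2A_z0 {P : Sl} (hP : P.Ok) {i : ℕ} (hi : i ≤ P.L) : 0 ≤ P.z i := by
  have := S2A_zmono hP 0 i (Nat.zero_le _) hi
  rwa [hP.z0] at this

theorem S2A_zT {P : Sl} (hP : P.Ok) {i : ℕ} (hi : i ≤ P.L) : P.z i ≤ P.T - 1 :=
  (S2A_zmono hP i P.L hi le_rfl).trans hP.zT

/-- outer slices are disjoint -/
theorem S2A_doo {P : Sl} (hP : P.Ok) {i j : ℕ} (hi : i < P.L) (hj : j < P.L) (hij : i ≠ j) :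
    Disjoint (Set.Ioc (P.T - P.z (i + 1)) (P.T - P.z i))
      (Set.Ioc (P.T - P.z (j + 1)) (P.T - P.z j)) := by
  rcases lt_or_gt_of_ne hij with hlt | hlt
  · refine (S2A_disj ?_).symm
    have := S2A_zmono hP (i + 1) j hlt hj.le
    linarith
  · refine S2A_disj ?_
    have := S2A_zmono hP (j + 1) i hlt hi.le
    linarith

/-- inner slices are disjoint -/
theorem S2A_dii {P : Sl} (hP : P.Ok) {i j : ℕ} (hi : i < P.L) (hj : j < P.L) (hij : i ≠ j) :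
    Disjoint (Set.Ioc (2 - P.T + P.z i) (2 - P.T + P.z (i + 1)))
      (Set.Ioc (2 - P.T + P.z j) (2 - P.T + P.z (j + 1))) := by
  rcases lt_or_gt_of_ne hij with hlt | hlt
  · refine S2A_disj ?_
    have := S2A_zmono hP (i + 1) j hlt hj.le
    linarith
  · refine (S2A_disj ?_).symm
    have := S2A_zmono hP (j + 1) i hlt hi.le
    linarith

/-- inner and outer slices are disjoint -/
theorem S2A_dio {P : Sl} (hP : P.Ok) {i j : ℕ} (hi : i < P.L) (hj : j < P.L) :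
    Disjoint (Set.Ioc (2 - P.T + P.z i) (2 - P.T + P.z (i + 1)))
      (Set.Ioc (P.T - P.z (j + 1)) (P.T - P.z j)) := by
  refine S2A_disj ?_
  have h1 := S2A_zT hP (i := i + 1) hi
  have h2 := S2A_zT hP (i := j + 1) hj
  linarith

theorem S2A_upp (hLIN : L_LIN) (hGII : C_GII) {w : ℝ → ℝ} (hw : Wt w) {k : ℕ} {h : Fin k → ℕ × ℕ}
    {P : Sl} {F : (Fin k → ℝ) → ℝ} (hP : P.Ok) (hF : Tst k P.T F) (hU : UppConcl w h F)
    {δ : ℝ} (hδ0 : 0 < δ) (hδ1 : δ < 1 / 8) (C0 : ℝ) {η : ℝ} (hη : 0 < η) (m : Fin k)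
    (l : ℕ) (hl : l < P.L) :
    Ev fun D0 x => ∀ v0 : ℕ, (∀ i, (lf (h i) v0).Coprime (primorial D0)) →
      ∀ τ : ℕ → ℝ, (∀ i ≤ l, |τ i| ≤ C0) → ∀ v : Co (Sx D0 x) k → ℝ,
      v = ∑ j ∈ range (l + 1), (lsl D0 δ x F m (P.T - P.z (j + 1)) (P.T - P.z j) +
        τ j • lsl D0 δ x F m (2 - P.T + P.z j) (2 - P.T + P.z (j + 1))) →
      S2 w h D0 v0 x m v v ≤ Nn w k D0 δ x *
        (∑ j ∈ range (l + 1), (GK F m (P.T - P.z (j + 1)) (P.T - P.z j) / (1 - 4 * δ) +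
          τ j ^ 2 * (4 / (1 - 4 * δ) / (P.T - P.z (j + 1)) *
            GI F m (2 - P.T + P.z j) (2 - P.T + P.z (j + 1)))) + η) := by
  set n := l + 1 with hn
  have hnL : ∀ j, j < n → j < P.L := fun j hj => by omega
  set a : ℕ → ℝ := fun j => if j < n then P.T - P.z (j + 1) else 2 - P.T + P.z (j - n) with ha
  set b : ℕ → ℝ := fun j => if j < n then P.T - P.z j else 2 - P.T + P.z (j - n + 1) with hb
  have hE := S2A_Ev_and (hU δ hδ0 hδ1 (max C0 1) (n + n) a b η hη) S2A_Ev_base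
  refine S2A_Ev_mono ?_ hE
  intro D0 x hx v0 hv τ hτ v hvdef
  obtain ⟨hx, hD3, hx1⟩ := hx
  set c : ℕ → ℝ := fun j => if j < n then 1 else τ (j - n) with hc
  have hcb : ∀ j < n + n, |c j| ≤ max C0 1 := by
    intro j hj
    simp only [hc]
    by_cases hjn : j < n
    · rw [if_pos hjn, abs_one]
      exact le_max_right _ _
    · rw [if_neg hjn]
      exact (hτ (j - n) (by omega)).trans (le_max_left _ _)
  obtain ⟨B, hB1, hB2, hB3, hB4⟩ := hLIN w hw k h D0 v0 x (Sx D0 x) m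
  have hv' : v = lam aF (fun r => stp (n + n) a b c (sz (Rx δ x) r) * ym (Rx δ x) F m r) := by
    have h1 : v = S2A_lin aF (fun y y' c => hB4 aF y y' c)
        (∑ j ∈ range n, (slc (Rx δ x) (Set.Ioc (P.T - P.z (j + 1)) (P.T - P.z j)) (ym (Rx δ x) F m) +
          τ j • slc (Rx δ x) (Set.Ioc (2 - P.T + P.z j) (2 - P.T + P.z (j + 1)))
            (ym (Rx δ x) F m))) := by
      rw [map_sum, hvdef]
      refine Finset.sum_congr rfl (fun j _ => ?_)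
      rw [map_add, map_smul]
      rfl
    rw [h1, S2A_stp (Rx δ x) (ym (Rx δ x) F m) n (fun j => P.T - P.z (j + 1))
      (fun j => P.T - P.z j) (fun j => 2 - P.T + P.z j) (fun j => 2 - P.T + P.z (j + 1)) τ]
    rfl
  have key := hx v0 hv m c hcb _ (fun r => rfl)
  rw [← hv'] at key
  obtain ⟨hG1, hG2⟩ := hGII k P.T F hP.hT1 hP.hT2 hF m
  have hdis : ∀ i < n + n, ∀ j < n + n, i ≠ j → Disjoint (Set.Ioc (a i) (b i))
      (Set.Ioc (a j) (b j)) := by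
    intro i hi j hj hij
    simp only [ha, hb]
    by_cases hin : i < n
    · rw [if_pos hin, if_pos hin]
      by_cases hjn : j < n
      · rw [if_pos hjn, if_pos hjn]
        exact S2A_doo hP (hnL i hin) (hnL j hjn) hij
      · rw [if_neg hjn, if_neg hjn]
        exact (S2A_dio hP (hnL (j - n) (by omega)) (hnL i hin)).symm
    · rw [if_neg hin, if_neg hin]
      by_cases hjn : j < n
      · rw [if_pos hjn, if_pos hjn]
        exact S2A_dio hP (hnL (i - n) (by omega)) (hnL j hjn)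
      · rw [if_neg hjn, if_neg hjn]
        exact S2A_dii hP (hnL (i - n) (by omega)) (hnL (j - n) (by omega)) (by omega)
  have hint := (hG2 (n + n) a b c hdis).2
  rw [Finset.sum_range_add] at hint
  have hs1 : ∑ j ∈ range n, c j ^ 2 * GK F m (a j) (b j) =
      ∑ j ∈ range n, GK F m (P.T - P.z (j + 1)) (P.T - P.z j) := by
    refine Finset.sum_congr rfl (fun j hj => ?_)
    have hj' : j < n := Finset.mem_range.1 hj
    simp only [ha, hb, hc, hj', if_true]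
    ring
  have hs2 : ∑ j ∈ range n, c (n + j) ^ 2 * GK F m (a (n + j)) (b (n + j)) =
      ∑ j ∈ range n, τ j ^ 2 * GK F m (2 - P.T + P.z j) (2 - P.T + P.z (j + 1)) := by
    refine Finset.sum_congr rfl (fun j hj => ?_)
    have h2 : ¬ n + j < n := by omega
    have h3 : n + j - n = j := by omega
    simp only [ha, hb, hc, h2, h3, if_false]
  rw [hs1, hs2, ← Finset.sum_add_distrib] at hint
  have hδ : 0 < 1 - 4 * δ := by linarith
  refine key.trans (mul_le_mul_of_nonneg_left ?_ (S2A_Nn_pos hw k D0 hδ1 hx1).le)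
  refine add_le_add ?_ le_rfl
  set I := ∫ t, cutm m (fun t => stp (n + n) a b c (so m t) ^ 2 * marg F m t ^ 2 /
    (2 - so m t)) t with hI
  have h4 : 4 / (1 - 4 * δ) * I = (4 * I) / (1 - 4 * δ) := by ring
  rw [h4, hint, Finset.sum_div]
  refine Finset.sum_le_sum (fun j hj => ?_)
  have hj' : j < P.L := hnL j (Finset.mem_range.1 hj)
  have hz := S2A_zT hP (i := j + 1) hj'
  have hT1 := hP.hT1
  have hT2 := hP.hT2
  have h5 := (hG1 (2 - P.T + P.z j) (2 - P.T + P.z (j + 1))).2.2 (by linarith)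
  have h6 : 2 - (2 - P.T + P.z (j + 1)) = P.T - P.z (j + 1) := by ring
  rw [h6] at h5
  rw [add_div]
  refine add_le_add le_rfl ?_
  have h7 : τ j ^ 2 * (4 / (1 - 4 * δ) / (P.T - P.z (j + 1)) *
      GI F m (2 - P.T + P.z j) (2 - P.T + P.z (j + 1))) =
      τ j ^ 2 * (4 / (P.T - P.z (j + 1)) *
      GI F m (2 - P.T + P.z j) (2 - P.T + P.z (j + 1))) / (1 - 4 * δ) := by
    ring
  rw [h7]
  exact div_le_div_of_nonneg_right (mul_le_mul_of_nonneg_left h5 (sq_nonneg _)) hδ.le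

theorem S2A_one (hINV : C_INV) (hRS : L_RS) (hDEC : C_DEC) (hLIN : L_LIN) (hAL : C_AL)
    (hALD : C_ALD) (hGII : C_GII) (hJD : C_JD) {w : ℝ → ℝ} (hw : Wt w) {k : ℕ} {h : Fin k → ℕ × ℕ}
    (hA : AdmL h) {P : Sl} {F : (Fin k → ℝ) → ℝ} (hP : P.Ok) (hF : Tst k P.T F) (hG : GramConcl w h F)
    (hU : UppConcl w h F) (hY : YmConcl P.T F) (m : Fin k) {ε : ℝ} (hε : 0 < ε) :
    ∃ δ1 : ℝ, 0 < δ1 ∧ δ1 < 1 / 8 ∧ ∀ δ : ℝ, 0 < δ → δ ≤ δ1 → Ev fun D0 x => ∀ v0 : ℕ,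
      (∀ i, (lf (h i) v0).Coprime (primorial D0)) → ∀ l : Co (Sx D0 x) k → ℝ,
      l = lam aP (yF (Rx δ x) F) →
      Nn w k D0 δ x * (Jm P F m - ε) ≤ S2 w h D0 v0 x m l l := by
  have hT1 := hP.hT1
  have hT2 := hP.hT2
  obtain ⟨hG1, hG2⟩ := hGII k P.T F hP.hT1 hP.hT2 hF m
  set m0 : ℝ := GI F m (-1) (2 - P.T) with hm0
  set mm : ℕ → ℝ := fun l => GI F m (2 - P.T + P.z l) (2 - P.T + P.z (l + 1)) with hmm
  set bb : ℕ → ℝ := fun l => GK F m (P.T - P.z (l + 1)) (P.T - P.z l) with hbbd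
  have hbb : ∀ l < P.L, 0 ≤ bb l := fun l hl => (hG1 _ _).2.1 (by
    have := S2A_z0 hP hl.le
    linarith)
  obtain ⟨δ1, hd0, hd1, hd⟩ := hALD P hP bb hbb (ε / 2) (by linarith)
  refine ⟨δ1, hd0, hd1, fun δ hδ0 hδ1 => ?_⟩
  have hδ8 : δ < 1 / 8 := lt_of_le_of_lt hδ1 hd1
  have hδ4 : 0 < 1 - 4 * δ := by linarith
  set K : ℕ → ℝ := fun l => 4 / (1 - 4 * δ) / (P.T - P.z (l + 1)) with hKd
  obtain ⟨hK1, hK2, hK3⟩ := hd δ hδ0 hδ1 K (fun l => rfl)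
  obtain ⟨η, C0, hη, hC0, hal⟩ := hAL P.L K P.Lam m0 mm (fun l => bb l / (1 - 4 * δ))
    (hG1 _ _).1 (fun i hi => ⟨hK1 i hi, hP.Lpos i hi, (hG1 _ _).1,
      div_nonneg (hbb i hi) hδ4.le⟩) hK2 (ε / 2) (by linarith)
  have zle : ∀ i j : ℕ, i ≤ j → j ≤ P.L → P.z i ≤ P.z j := S2A_zmono hP
  have z0 : ∀ i : ℕ, i ≤ P.L → 0 ≤ P.z i := fun i hi => S2A_z0 hP hi
  have zT : ∀ i : ℕ, i ≤ P.L → P.z i ≤ P.T - 1 := fun i hi => S2A_zT hP hi
  -- the Gram conditions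
  have E1 := S2A_same hG hδ0 hδ8 (a := -1) (b := 2 - P.T) (by linarith) hη m
  have E2 := S2A_Ev_lt P.L (fun i hi => S2A_same hG hδ0 hδ8 (a := 2 - P.T + P.z i)
    (b := 2 - P.T + P.z (i + 1)) (by have := zT (i + 1) hi; linarith) hη m)
  have E3 := S2A_Ev_lt P.L (fun i hi => S2A_dis hG hδ0 hδ8 (a := -1) (b := 2 - P.T)
    (a' := 2 - P.T + P.z i) (b' := 2 - P.T + P.z (i + 1))
    (by have := zT (i + 1) hi; linarith)
    (S2A_disj (by have := z0 i hi.le; linarith)) hη m)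
  have E4 := S2A_dis hG hδ0 hδ8 (a := -1) (b := 2 - P.T)
    (a' := 2 - P.T + P.z P.L) (b' := P.T - P.z P.L)
    (by have := z0 P.L le_rfl; linarith)
    (S2A_disj (by have := z0 P.L le_rfl; linarith)) hη m
  have E5 := S2A_Ev_lt P.L (fun i hi => S2A_dis hG hδ0 hδ8 (a := -1) (b := 2 - P.T)
    (a' := P.T - P.z (i + 1)) (b' := P.T - P.z i)
    (by have := z0 i hi.le; linarith)
    (S2A_disj (by have := zT (i + 1) hi; linarith)) hη m)
  have E6 := S2A_Ev_lt2 P.L (C := fun i j => i ≠ j) (fun i hi j hj hij =>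
    S2A_dis hG hδ0 hδ8 (a := 2 - P.T + P.z i) (b := 2 - P.T + P.z (i + 1))
    (a' := 2 - P.T + P.z j) (b' := 2 - P.T + P.z (j + 1))
    (by have h1 := zT (i + 1) hi; have h2 := zT (j + 1) hj; linarith)
    (S2A_dii hP hi hj hij) hη m)
  have E7 := S2A_Ev_lt P.L (fun i hi => S2A_dis hG hδ0 hδ8 (a := 2 - P.T + P.z i)
    (b := 2 - P.T + P.z (i + 1)) (a' := 2 - P.T + P.z P.L) (b' := P.T - P.z P.L)
    (by have := zle (i + 1) P.L hi le_rfl; linarith)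
    (S2A_disj (by have := zle (i + 1) P.L hi le_rfl; linarith)) hη m)
  have E8 := S2A_Ev_lt2 P.L (C := fun i j => i < j) (fun i hi j hj hij =>
    S2A_dis hG hδ0 hδ8 (a := 2 - P.T + P.z i) (b := 2 - P.T + P.z (i + 1))
    (a' := P.T - P.z (j + 1)) (b' := P.T - P.z j)
    (by have h1 := zle (i + 1) j hij hj.le; linarith)
    (S2A_dio hP hi hj) hη m)
  have E9 := S2A_Ev_lt P.L (fun l hl => S2A_upp hLIN hGII hw hP hF hU hδ0 hδ8 C0 hη m l hl)
  have E10 := hY δ hδ0 hδ8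
  have hE := S2A_Ev_and (S2A_Ev_and (S2A_Ev_and (S2A_Ev_and E1 E2) (S2A_Ev_and E3 E4))
    (S2A_Ev_and (S2A_Ev_and E5 E6) (S2A_Ev_and E7 E8))) (S2A_Ev_and (S2A_Ev_and E9 E10) S2A_Ev_base)
  refine S2A_Ev_mono ?_ hE
  intro D0 x hx v0 hv l hl
  obtain ⟨⟨⟨⟨e1, e2⟩, ⟨e3, e4⟩⟩, ⟨⟨e5, e6⟩, ⟨e7, e8⟩⟩⟩, ⟨⟨e9, e10⟩, hD3, hx1⟩⟩ := hx
  obtain ⟨B, hB1, hB2, hB3, hB4⟩ := hLIN w hw k h D0 v0 x (Sx D0 x) m
  have hN := S2A_Nn_pos hw k D0 hδ8 hx1
  have hR : 1 < Rx δ x := Real.one_lt_rpow hx1 (by linarith)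
  set N := Nn w k D0 δ x with hNd
  have hfin := hal (Co (Sx D0 x) k → ℝ) B hB2 hB3 N hN (lsl D0 δ x F m (-1) (2 - P.T))
    (lsl D0 δ x F m (2 - P.T + P.z P.L) (P.T - P.z P.L))
    (fun i => lsl D0 δ x F m (2 - P.T + P.z i) (2 - P.T + P.z (i + 1)))
    (fun i => lsl D0 δ x F m (P.T - P.z (i + 1)) (P.T - P.z i))
    (by rw [hB1]; exact e1 v0 hv)
    (fun i hi => by rw [hB1]; exact e2 i hi v0 hv)
    (fun i hi => by rw [hB1]; exact e3 i hi v0 hv)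
    (by rw [hB1]; exact e4 v0 hv)
    (fun i hi => by rw [hB1]; exact e5 i hi v0 hv)
    (fun i hi j hj hij => by rw [hB1]; exact e6 i hi j hj hij v0 hv)
    (fun i hi => by rw [hB1]; exact e7 i hi v0 hv)
    (fun i hi j hj hij => by rw [hB1]; exact e8 i hi j hj hij v0 hv)
    (fun l hl τ hτ => by rw [hB1]; exact e9 l hl v0 hv τ hτ _ rfl)
  -- the decomposition
  have hdec := hDEC (Sx D0 x) k P hP (Rx δ x) (ym (Rx δ x) F m) (fun r hr =>
    ⟨div_nonneg (Real.log_natCast_nonneg _) (Real.log_pos hR).le, (e10 m r hr).2⟩)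
  have hV : lam aF (ym (Rx δ x) F m) = lsl D0 δ x F m (-1) (2 - P.T) +
      lsl D0 δ x F m (2 - P.T + P.z P.L) (P.T - P.z P.L) +
      ∑ i ∈ range P.L, (lsl D0 δ x F m (2 - P.T + P.z i) (2 - P.T + P.z (i + 1)) +
        lsl D0 δ x F m (P.T - P.z (i + 1)) (P.T - P.z i)) := by
    have h1 : lam aF (ym (Rx δ x) F m) = S2A_lin aF (fun y y' c => hB4 aF y y' c)
        (ym (Rx δ x) F m) := rfl
    rw [h1]
    conv_lhs => rw [hdec]
    rw [map_add, map_add, map_sum]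
    congr 1
    refine Finset.sum_congr rfl (fun i _ => ?_)
    rw [map_add]
    rfl
  have hrst : rst m l = lam aF (ym (Rx δ x) F m) := by
    have h1 := (hINV (Sx D0 x) k aF (fun p hp => by
      have hp2 : D0 < p := (Finset.mem_filter.1 hp).2.2
      have hp3 : (3 : ℝ) < (p : ℝ) := by exact_mod_cast lt_of_le_of_lt hD3 hp2
      unfold aF
      constructor
      · intro hc
        linarith
      · intro hc
        linarith) (rst m (lam aP (yF (Rx δ x) F)))).2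
    unfold ym
    rw [h1, hl]
  rw [hRS w hw k h hA D0 v0 x hx1.le m l l, hrst, hV, ← hB1]
  refine le_trans ?_ hfin
  refine mul_le_mul_of_nonneg_left ?_ hN.le
  rw [hJD k P F hP hF m, Finset.sum_sub_distrib, Finset.sum_sub_distrib]
  have h2 : ∑ l ∈ range P.L, P.Lam l * ((4 - P.T + P.z (l + 1)) / 4) *
      GK F m (P.T - P.z (l + 1)) (P.T - P.z l) =
      ∑ l ∈ range P.L, P.Lam l * ((4 - P.T + P.z (l + 1)) / 4) * bb l := rfl
  have h3 : ∑ l ∈ range P.L, P.Lam l / (1 + P.Lam l) *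
      GI F m (2 - P.T + P.z l) (2 - P.T + P.z (l + 1)) =
      ∑ l ∈ range P.L, P.Lam l / (1 + P.Lam l) * mm l := rfl
  rw [h2, h3, ← hm0]
  linarith

theorem prf_S2A (hINV : C_INV) (hRS : L_RS) (hDEC : C_DEC) (hLIN : L_LIN) (hAL : C_AL)
    (hALD : C_ALD) (hGII : C_GII) (hJD : C_JD) : L_S2A := by
  intro w hw k h hk hA P F hP hF hG hU hY ε hε
  choose d hd0 hd1 hd using fun m : Fin k =>
    S2A_one hINV hRS hDEC hLIN hAL hALD hGII hJD hw hA hP hF hG hU hY m hε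
  have : Nonempty (Fin k) := ⟨⟨0, hk⟩⟩
  obtain ⟨m0, hm0⟩ := Finite.exists_min d
  refine ⟨d m0, hd0 m0, hd1 m0, fun δ hδ0 hδ1 => ?_⟩
  have h1 := S2A_Ev_fin (fun m : Fin k => hd m δ hδ0 (hδ1.trans (hm0 m)))
  exact S2A_Ev_mono (fun D0 x hx v0 hv m l hl => hx m v0 hv l hl) h1

end MPb51559.BG.LF
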