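import Pool.Agent.Work.MP_b51559_nt.LF.S2E

set_option autoImplicit false

/-!
# Block LF, item S2B: the prime side for two pieces of total size at most 2
-/

namespace MPb51559.BG.LF

open Finset Filter Topology MeasureTheory
open scoped Classical

theorem S2B_mw_nonneg {S : Finset ℕ} {k : ℕ} (r : Co S k) : 0 ≤ mw (fun _ => (2 : ℝ)) r := by
  unfold mw
  refine Finset.prod_nonneg fun p _ => ?_
  split_ifs <;> norm_num

theorem S2B_Eq1_nonneg (w : ℝ → ℝ) (x : ℝ) (q : ℕ) : 0 ≤ Eq1 w x q := by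
  unfold Eq1
  refine Real.iSup_nonneg fun a => ?_
  split_ifs
  · exact abs_nonneg _
  · exact le_rfl

theorem S2B_coprime {D0 p : ℕ} (hp : p.Prime) (h : D0 < p) : p.Coprime (primorial D0) := by
  unfold primorial
  refine Nat.Coprime.prod_right fun q hq => ?_
  rw [Finset.mem_filter, Finset.mem_range] at hq
  exact (Nat.coprime_primes hp hq.2).2 (by omega)

theorem S2B_size {S : Finset ℕ} {k : ℕ} {R s : ℝ} (hR : 1 < R) (r : Co S k) (hr0 : 0 < nrm r)
    (h : sz R r ≤ s) : (nrm r : ℝ) ≤ R ^ s := by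
  have hlog : 0 < Real.log R := Real.log_pos hR
  have hn : (0 : ℝ) < nrm r := by exact_mod_cast hr0
  unfold sz at h
  rw [div_le_iff₀ hlog] at h
  rw [← Real.exp_log hn, Real.rpow_def_of_pos (by linarith)]
  exact Real.exp_le_exp.2 (by linarith [mul_comm s (Real.log R)])

theorem S2B_nrm_pos {S : Finset ℕ} {k : ℕ} (hS : ∀ p ∈ S, p.Prime) (r : Co S k) : 0 < nrm r := by
  unfold nrm
  refine Finset.prod_pos fun p _ => ?_
  split_ifs
  · exact Nat.one_pos
  · exact (hS p p.2).pos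

theorem prf_S2B (hSUP : C_SUP) (hSZ : C_SZ) (hS2E : L_S2E) (hBVS : C_BVS) (hJCT : C_JCT) :
    L_S2B := by
  intro w hw k h hinj δ hδ hδ8 D0 hD0 hhD
  obtain ⟨x1, h1⟩ := hS2E w hw k h hinj
  obtain ⟨x2, h2⟩ := hBVS w hw δ hδ (8 * k) (4 * k + 10)
  have hW0 : 0 < primorial D0 := primorial_pos D0
  have hlog := Real.tendsto_log_atTop
  obtain ⟨A, hAdef⟩ : ∃ A : ℕ, A = ∑ i, (h i).1 := ⟨_, rfl⟩
  have hev : ∀ᶠ x : ℝ in atTop, 1 < x ∧ (A * primorial D0 : ℝ) ≤ x ^ δ ∧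
      (A : ℝ) * (2 : ℝ) ^ (4 * k) ≤ Real.log x ∧ 1 ≤ Real.log x ∧ x1 ≤ x ∧ x2 ≤ x :=
    (eventually_gt_atTop 1).and (((tendsto_rpow_atTop hδ).eventually_ge_atTop _).and
      ((hlog.eventually_ge_atTop _).and ((hlog.eventually_ge_atTop _).and
        ((eventually_ge_atTop x1).and (eventually_ge_atTop x2)))))
  obtain ⟨x0, hx0⟩ := eventually_atTop.1 hev
  refine ⟨x0, fun x hx v0 hv0 m y y' s s' hs hs' hss hy hy' hym hym' => ?_⟩
  obtain ⟨hx1, hWx, h2k, hl1, hxx1, hxx2⟩ := hx0 x hx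
  have hk : 0 < k := Fin.pos m
  have hxp : 0 < x := by linarith
  have hm1 : (1 : ℝ) ≤ (h m).1 := by exact_mod_cast hinj.pos m
  have hmA : ((h m).1 : ℝ) ≤ A := by
    rw [hAdef]
    exact_mod_cast Finset.single_le_sum (f := fun i => (h i).1) (fun _ _ => Nat.zero_le _)
      (mem_univ m)
  obtain ⟨X, hX⟩ : ∃ X : ℝ, X = ((h m).1 : ℝ) * x := ⟨_, rfl⟩
  have hxX : x ≤ X := by rw [hX]; nlinarith
  have hXA : X ≤ A * x := by rw [hX]; gcongr
  obtain ⟨W, hWdef⟩ : ∃ W : ℕ, W = (h m).1 * primorial D0 := ⟨_, rfl⟩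
  have hWpos : 0 < W := by rw [hWdef]; exact Nat.mul_pos (hinj.pos m) hW0
  have hS : ∀ p ∈ Sx D0 x, p.Prime ∧ D0 < p := by
    intro p hp
    exact (Finset.mem_filter.1 hp).2
  have hSp : ∀ p ∈ Sx D0 x, p.Prime := fun p hp => (hS p hp).1
  have hS3 : ∀ p ∈ Sx D0 x, p.Prime ∧ 3 < p := fun p hp => ⟨(hS p hp).1, by
    have := (hS p hp).2; omega⟩
  have hS1 : ∀ p ∈ Sx D0 x, 1 ≤ p := fun p hp => (hSp p hp).one_le
  have hSc : ∀ p ∈ Sx D0 x, p.Prime ∧ p.Coprime W := by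
    intro p hp
    refine ⟨hSp p hp, ?_⟩
    rw [hWdef]
    refine Nat.Coprime.mul_right ?_ (S2B_coprime (hSp p hp) (hS p hp).2)
    refine (Nat.Prime.coprime_iff_not_dvd (hSp p hp)).2 fun hd => ?_
    have e1 := Nat.le_of_dvd (hinj.pos m) hd
    have e2 := (hhD m m).2
    have e3 := (hS p hp).2
    omega
  obtain ⟨R, hRdef⟩ : ∃ R, R = Rx δ x := ⟨_, rfl⟩
  rw [← hRdef] at hym hym'
  have hR : 1 < R := by
    rw [hRdef, Rx]
    exact Real.one_lt_rpow hx1 (by linarith)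
  have hRs : ∀ u : ℝ, u ≤ 2 → R ^ u ≤ x := by
    intro u hu
    rw [hRdef, Rx, ← Real.rpow_mul hxp.le]
    calc x ^ ((1 / 4 - δ) * u) ≤ x ^ (1 : ℝ) :=
          Real.rpow_le_rpow_of_exponent_le hx1.le (by nlinarith)
      _ = x := Real.rpow_one x
  have hN1 : 1 ≤ ⌊x⌋₊ := Nat.le_floor (by exact_mod_cast hx1.le)
  have hlN : Real.log (⌊x⌋₊ : ℝ) ≤ Real.log x :=
    Real.log_le_log (by exact_mod_cast hN1) (Nat.floor_le hxp.le)
  have hlN0 : 0 ≤ Real.log (⌊x⌋₊ : ℝ) := Real.log_nonneg (by exact_mod_cast hN1)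
  -- general facts on one piece
  have hpiece : ∀ (z : Co (Sx D0 x) k → ℝ) (u : ℝ), u ≤ 2 → (∀ r, |z r| ≤ Real.log x ^ 2) →
      (∀ r, z r ≠ 0 → NoC m r ∧ sz R r ≤ u) →
      (∀ d, lam aF z d ≠ 0 → NoC m d) ∧ (∀ d, lam aF z d ≠ 0 → (nrm d : ℝ) ≤ R ^ u) ∧
      ∀ d, |lam aF z d| ≤ Real.log x ^ 2 * mw (fun _ => 2) d *
        (1 + Real.log (⌊x⌋₊ : ℝ)) ^ (2 * k) := by
    intro z u hu hz hzm
    obtain ⟨hA, hB⟩ := hSUP (Sx D0 x) k aF hS1 z
    have hn : ∀ r, z r ≠ 0 → (nrm r : ℝ) ≤ R ^ u := fun r hr =>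
      S2B_size hR r (S2B_nrm_pos hSp r) (hzm r hr).2
    refine ⟨(hB m fun r hr => (hzm r hr).1).1, (hA _ hn).1, ?_⟩
    refine hSZ (Sx D0 x) k hS3 aF (Or.inr rfl) z (Real.log x ^ 2) ⌊x⌋₊ hN1 (sq_nonneg _) hz ?_
    intro r hr
    exact Nat.le_floor ((hn r hr).trans (hRs u hu))
  obtain ⟨hlm, hln, hlb⟩ := hpiece y s (by linarith) hy hym
  obtain ⟨hlm', hln', hlb'⟩ := hpiece y' s' (by linarith) hy' hym'
  obtain ⟨l, hl⟩ : ∃ l, l = lam aF y := ⟨_, rfl⟩
  obtain ⟨l', hl'⟩ : ∃ l', l' = lam aF y' := ⟨_, rfl⟩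
  rw [← hl] at hlm hln hlb
  rw [← hl'] at hlm' hln' hlb'
  rw [← hl, ← hl']
  refine (h1 x hxx1 D0 v0 (Sx D0 x) hhD hS hv0 m l l' hlm hlm').trans ?_
  rw [← hX, ← hWdef]
  obtain ⟨P, hP⟩ : ∃ P, P = (1 + Real.log (⌊x⌋₊ : ℝ)) ^ (2 * k) := ⟨_, rfl⟩
  rw [← hP] at hlb hlb'
  have hP0 : 0 ≤ P := by rw [hP]; positivity
  obtain ⟨Z, hZ⟩ : ∃ Z, Z = R ^ (2 : ℝ) := ⟨_, rfl⟩
  have hZ0 : 0 ≤ Z := by rw [hZ]; positivity
  have hWle : (W : ℝ) ≤ x ^ δ := by
    refine le_trans ?_ hWx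
    rw [hWdef, Nat.cast_mul]
    gcongr
  have hWZ : (W : ℝ) * Z ≤ X ^ (1 / 2 - δ) := by
    have e0 : x ^ (1 / 2 - δ) ≤ X ^ (1 / 2 - δ) := by
      apply Real.rpow_le_rpow hxp.le hxX
      linarith
    refine le_trans ?_ e0
    have e1 : Z = x ^ (1 / 2 - 2 * δ) := by
      rw [hZ, hRdef, Rx, ← Real.rpow_mul hxp.le]
      congr 1
      ring
    have e2 : x ^ (1 / 2 - δ) = x ^ δ * x ^ (1 / 2 - 2 * δ) := by
      rw [← Real.rpow_add hxp]
      congr 1
      ring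
    rw [e2, e1]
    gcongr
  have hterm : ∀ d e : Co (Sx D0 x) k,
      (if Cmp d e then |l d| * |l' e| * Eq1 w X (W * nrm (jn d e)) else 0) ≤
      (Real.log x ^ 2 * P) * (Real.log x ^ 2 * P) *
        (if Cmp d e ∧ (nrm d : ℝ) * nrm e ≤ Z then
          mw (fun _ => 2) d * mw (fun _ => 2) e * Eq1 w X (W * nrm (jn d e)) else 0) := by
    intro d e
    have hE := S2B_Eq1_nonneg w X (W * nrm (jn d e))
    have hm1 := S2B_mw_nonneg d
    have hm2 := S2B_mw_nonneg e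
    by_cases hc : Cmp d e
    · by_cases hz : (nrm d : ℝ) * nrm e ≤ Z
      · rw [if_pos hc, if_pos ⟨hc, hz⟩]
        calc |l d| * |l' e| * Eq1 w X (W * nrm (jn d e)) ≤
            (Real.log x ^ 2 * mw (fun _ => 2) d * P) * (Real.log x ^ 2 * mw (fun _ => 2) e * P) *
              Eq1 w X (W * nrm (jn d e)) := by
              have hb1 := hlb d
              have hb2 := hlb' e
              gcongr
          _ = _ := by ring
      · rw [if_pos hc, if_neg (fun hh => hz hh.2), mul_zero]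
        have : l d = 0 ∨ l' e = 0 := by
          by_contra hcon
          rw [not_or] at hcon
          apply hz
          calc (nrm d : ℝ) * nrm e ≤ R ^ s * R ^ s' := by
                have a1 := hln d hcon.1
                have a2 := hln' e hcon.2
                gcongr
            _ = R ^ (s + s') := by rw [Real.rpow_add (by linarith)]
            _ ≤ R ^ (2 : ℝ) := Real.rpow_le_rpow_of_exponent_le hR.le hss
            _ = Z := hZ.symm
        rcases this with h0 | h0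
        · rw [h0]; simp
        · rw [h0]; simp
    · rw [if_neg hc, if_neg (fun hh => hc hh.1), mul_zero]
  have hsum : (∑ d, ∑ e, if Cmp d e then
      |l d| * |l' e| * Eq1 w X (W * nrm (jn d e)) else 0) ≤
      (Real.log x ^ 2 * P) * (Real.log x ^ 2 * P) *
        ∑ n ∈ Icc 1 ⌊(W : ℝ) * Z⌋₊, ((8 * k : ℕ) : ℝ) ^ n.primeFactors.card *
          Eq1 w X n := by
    calc _ ≤ ∑ d, ∑ e, (Real.log x ^ 2 * P) * (Real.log x ^ 2 * P) *
        (if Cmp d e ∧ (nrm d : ℝ) * nrm e ≤ Z then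
          mw (fun _ => 2) d * mw (fun _ => 2) e * Eq1 w X (W * nrm (jn d e)) else 0) :=
          Finset.sum_le_sum fun d _ => Finset.sum_le_sum fun e _ => hterm d e
      _ = (Real.log x ^ 2 * P) * (Real.log x ^ 2 * P) * ∑ d, ∑ e,
        (if Cmp d e ∧ (nrm d : ℝ) * nrm e ≤ Z then
          mw (fun _ => 2) d * mw (fun _ => 2) e * Eq1 w X (W * nrm (jn d e)) else 0) := by
          rw [Finset.mul_sum]
          refine Finset.sum_congr rfl fun d _ => ?_
          rw [Finset.mul_sum]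
      _ ≤ _ := by
          have hj := hJCT (Sx D0 x) k W hk hWpos hSc (Eq1 w X)
            (S2B_Eq1_nonneg w X) Z hZ0
          gcongr
  have hbv : ∑ n ∈ Icc 1 ⌊(W : ℝ) * Z⌋₊, ((8 * k : ℕ) : ℝ) ^ n.primeFactors.card *
      Eq1 w X n ≤ A * x / Real.log x ^ (4 * k + 10) := by
    have hlX : Real.log x ≤ Real.log X := Real.log_le_log hxp hxX
    have e5 : X / Real.log X ^ (4 * k + 10) ≤ A * x / Real.log x ^ (4 * k + 10) := by
      have e6 : 0 < Real.log x ^ (4 * k + 10) := by positivity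
      have e7 : 0 ≤ X := by linarith
      gcongr
    refine le_trans ?_ ((h2 X (hxx2.trans hxX)).trans e5)
    refine Finset.sum_le_sum_of_subset_of_nonneg ?_ ?_
    · exact Finset.Icc_subset_Icc le_rfl (Nat.floor_le_floor hWZ)
    · intro n _ _
      have := S2B_Eq1_nonneg w X n
      positivity
  refine hsum.trans ?_
  have hlx : 0 < Real.log x := by linarith
  have hPb : P ≤ (2 * Real.log x) ^ (2 * k) := by
    rw [hP]
    gcongr
    linarith
  calc (Real.log x ^ 2 * P) * (Real.log x ^ 2 * P) *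
        ∑ n ∈ Icc 1 ⌊(W : ℝ) * Z⌋₊, ((8 * k : ℕ) : ℝ) ^ n.primeFactors.card *
          Eq1 w X n
      ≤ (Real.log x ^ 2 * (2 * Real.log x) ^ (2 * k)) *
        (Real.log x ^ 2 * (2 * Real.log x) ^ (2 * k)) * (A * x / Real.log x ^ (4 * k + 10)) := by
        have h0 : 0 ≤ ∑ n ∈ Icc 1 ⌊(W : ℝ) * Z⌋₊,
            ((8 * k : ℕ) : ℝ) ^ n.primeFactors.card * Eq1 w X n := by
          refine Finset.sum_nonneg fun n _ => ?_
          have := S2B_Eq1_nonneg w X n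
          positivity
        gcongr
    _ = (A * (2 : ℝ) ^ (4 * k)) * (x / Real.log x ^ 6) := by
        have e1 : Real.log x ^ (4 * k + 10) = Real.log x ^ (4 * k) * Real.log x ^ 4 *
            Real.log x ^ 6 := by rw [← pow_add, ← pow_add]
        rw [e1, mul_pow, show 2 * k = 2 * k from rfl]
        have e2 : (2 : ℝ) ^ (4 * k) = 2 ^ (2 * k) * 2 ^ (2 * k) := by rw [← pow_add]; congr 1; ring
        have e3 : Real.log x ^ (4 * k) = Real.log x ^ (2 * k) * Real.log x ^ (2 * k) := by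
          rw [← pow_add]; congr 1; ring
        rw [e2, e3]
        field_simp
    _ ≤ Real.log x * (x / Real.log x ^ 6) := by gcongr
    _ ≤ x / Real.log x := by
        rw [← mul_div_assoc, div_le_div_iff₀ (by positivity) hlx]
        have e4 : Real.log x * x * Real.log x = x * Real.log x ^ 2 := by ring
        rw [e4]
        have : Real.log x ^ 2 ≤ Real.log x ^ 6 := pow_le_pow_right₀ hl1 (by norm_num)
        gcongr

end MPb51559.BG.LF
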