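import Pool.Agent.Work.MP_b51559_nt.LF.Util

set_option autoImplicit false

/-! # Item TOT of block LF -/

namespace MPb51559.BG.LF

theorem prf_TOT : L_TOT := by
  intro a D0 ha haD
  have hW : primorial D0 ≠ 0 := (primorial_pos D0).ne'
  have hpf : a.primeFactors ⊆ (primorial D0).primeFactors := by
    intro p hp
    have h1 := Nat.prime_of_mem_primeFactors hp
    have h2 := Nat.le_of_dvd ha (Nat.dvd_of_mem_primeFactors hp)
    rw [Nat.mem_primeFactors]
    exact ⟨h1, (h1.dvd_primorial_iff).2 (h2.trans haD), hW⟩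
  have h1 : (a * primorial D0).totient = a * (primorial D0).totient := by
    have e1 := Nat.totient_mul_prod_primeFactors (a * primorial D0)
    have e2 := Nat.totient_mul_prod_primeFactors (primorial D0)
    have e3 : (a * primorial D0).primeFactors = (primorial D0).primeFactors := by
      rw [Nat.primeFactors_mul ha.ne' hW]
      exact Finset.union_eq_right.2 hpf
    rw [e3] at e1
    have hpos : 0 < ∏ p ∈ (primorial D0).primeFactors, p :=
      Finset.prod_pos fun p hp => (Nat.prime_of_mem_primeFactors hp).pos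
    apply Nat.eq_of_mul_eq_mul_right hpos
    rw [e1, mul_assoc a, mul_assoc a, e2]
  refine ⟨h1, fun n hn => ?_⟩
  have hco : (a * primorial D0).Coprime n := by
    refine Nat.coprime_of_dvd fun p hp hd1 hd2 => ?_
    have h3 : p ∣ primorial D0 := by
      rcases (hp.dvd_mul).1 hd1 with h | h
      · exact Nat.dvd_of_mem_primeFactors (hpf (Nat.mem_primeFactors.2 ⟨hp, h, ha.ne'⟩))
      · exact h
    have h4 := Nat.dvd_gcd h3 hd2
    rw [Nat.coprime_iff_gcd_eq_one.1 hn] at h4
    exact hp.one_lt.ne' (Nat.dvd_one.1 h4)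
  rw [Nat.totient_mul hco, h1]

end MPb51559.BG.LF
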