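import Pool.Agent.Work.MP_b51559_nt.LF.TMS
import Pool.Agent.Work.MP_b51559_nt.LF.TOT
import Pool.Agent.Work.MP_b51559_nt.BG.C.S2E

set_option autoImplicit false

/-!
# Block LF, item S2E: the exact expansion of the prime side
-/

namespace MPb51559.BG.LF

open Finset Filter Topology MeasureTheory
open scoped Classical

namespace S2Ex

lemma Vn_mul {S : Finset ℕ} {k : ℕ} (h : Fin k → ℕ × ℕ) (l l' : Co S k → ℝ) (n : ℕ) :
    Vn h l n * Vn h l' n = ∑ d, ∑ e, if Adh h d n ∧ Adh h e n then l d * l' e else 0 := by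
  unfold Vn
  rw [Finset.sum_filter, Finset.sum_filter, Finset.sum_mul_sum]
  refine Finset.sum_congr rfl fun d _ => Finset.sum_congr rfl fun e _ => ?_
  by_cases h1 : Adh h d n <;> by_cases h2 : Adh h e n <;> simp [h1, h2]

/-- the class of TMS is prime to the modulus -/
lemma cop_class {D0 a c N : ℕ} (hapos : 0 < a) (haD : a ≤ D0)
    (hc : c.Coprime (primorial D0 * N)) : c.Coprime (a * primorial D0 * N) := by
  have h1 : c.Coprime (primorial D0) := Nat.Coprime.coprime_mul_right_right hc
  have h2 : c.Coprime N := Nat.Coprime.coprime_mul_left_right hc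
  have h3 : c.Coprime a := by
    refine Nat.coprime_of_dvd fun p hp hd1 hd2 => ?_
    have e1 : p ∣ primorial D0 :=
      (hp.dvd_primorial_iff).2 ((Nat.le_of_dvd hapos hd2).trans haD)
    have e2 := Nat.dvd_gcd hd1 e1
    rw [Nat.coprime_iff_gcd_eq_one.1 h1] at e2
    exact hp.one_lt.ne' (Nat.dvd_one.1 e2)
  exact Nat.Coprime.mul_right (Nat.Coprime.mul_right h3 h1) h2

theorem main {k : ℕ} (hBAS : C_BAS) (hADJ : L_ADJ) (hCRT : L_CRT) (hTOT : L_TOT) (w : ℝ → ℝ)
    (h : Fin k → ℕ × ℕ)
    (hinj : AdmL h) (x : ℝ)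
    (htms : ∀ (m : Fin k) (q a : ℕ), 0 < q →
      ∑ n ∈ (range (⌊2 * x⌋₊ + 1)).filter (fun n => n ≡ a [MOD q]), tm w h x m n =
        thW w ((h m).1 * x) ((h m).1 * q) (lf (h m) a)) (D0 v0 : ℕ) (S : Finset ℕ) (hD : Big h D0)
    (hS : ∀ p ∈ S, p.Prime ∧ D0 < p) (hv : ∀ i, (lf (h i) v0).Coprime (primorial D0))
    (m : Fin k) (l l' : Co S k → ℝ) (hl : ∀ d, l d ≠ 0 → NoC m d)
    (hl' : ∀ d, l' d ≠ 0 → NoC m d) :
    |S2 w h D0 v0 x m l l' -
      thW w ((h m).1 * x) 1 0 / ((h m).1 * ((primorial D0).totient : ℝ)) * Qf aF l l'| ≤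
      ∑ d, ∑ e, if Cmp d e then
        |l d| * |l' e| * Eq1 w ((h m).1 * x) ((h m).1 * primorial D0 * nrm (jn d e)) else 0 := by
  set A := (range (⌊2 * x⌋₊ + 1)).filter (fun n => n ≡ v0 [MOD primorial D0]) with hA
  have hSp : ∀ p ∈ S, p.Prime := fun p hp => (hS p hp).1
  have hapos := hinj.pos m
  have haD : (h m).1 ≤ D0 := (hD m m).2
  -- the expansion
  have h1 : S2 w h D0 v0 x m l l' = ∑ d, ∑ e, ∑ n ∈ A,
      tm w h x m n * (if Adh h d n ∧ Adh h e n then l d * l' e else 0) := by
    unfold S2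
    rw [← hA]
    have h2 : ∀ n ∈ A, tm w h x m n * (Vn h l n * Vn h l' n) = ∑ d, ∑ e,
        tm w h x m n * (if Adh h d n ∧ Adh h e n then l d * l' e else 0) := by
      intro n _
      rw [Vn_mul, Finset.mul_sum]
      refine Finset.sum_congr rfl fun d _ => ?_
      rw [Finset.mul_sum]
    rw [Finset.sum_congr rfl h2, Finset.sum_comm]
    refine Finset.sum_congr rfl fun d _ => ?_
    rw [Finset.sum_comm]
  have h3 : thW w ((h m).1 * x) 1 0 / ((h m).1 * ((primorial D0).totient : ℝ)) * Qf aF l l' =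
      ∑ d, ∑ e, thW w ((h m).1 * x) 1 0 / ((h m).1 * ((primorial D0).totient : ℝ)) *
        (if Cmp d e then l d * l' e / mw aF (jn d e) else 0) := by
    unfold Qf
    rw [Finset.mul_sum]
    refine Finset.sum_congr rfl fun d _ => ?_
    rw [Finset.mul_sum]
  rw [h1, h3, ← Finset.sum_sub_distrib]
  refine (Finset.abs_sum_le_sum_abs _ _).trans (Finset.sum_le_sum fun d _ => ?_)
  rw [← Finset.sum_sub_distrib]
  refine (Finset.abs_sum_le_sum_abs _ _).trans (Finset.sum_le_sum fun e _ => ?_)
  have hadj := hADJ D0 S k h (fun p hp => (hS p hp).2) hD hinj d e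
  by_cases hC : Cmp d e
  · simp only [hC, if_true]
    by_cases hz : l d = 0 ∨ l' e = 0
    · have h4 : l d * l' e = 0 := by
        rcases hz with hz | hz <;> simp [hz]
      have h5 : |l d| * |l' e| = 0 := by rw [← abs_mul, h4, abs_zero]
      rw [h5, h4]
      simp
    · push Not at hz
      have hN : NoC m (jn d e) := MPb51559.BG.S2Ex.noC_jn (hl d hz.1) (hl' e hz.2)
      obtain ⟨a, ha1, ha2⟩ := hCRT D0 S k h hS hD hinj v0 hv (jn d e)
      have hB := hBAS S k hSp (jn d e)
      have hW : 0 < primorial D0 := primorial_pos D0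
      have hq : 0 < primorial D0 * nrm (jn d e) := Nat.mul_pos hW hB.2.1
      have hass : (h m).1 * (primorial D0 * nrm (jn d e)) = (h m).1 * primorial D0 * nrm (jn d e) :=
        (mul_assoc _ _ _).symm
      have hq' : 0 < (h m).1 * primorial D0 * nrm (jn d e) :=
        Nat.mul_pos (Nat.mul_pos hapos hW) hB.2.1
      have h6 : ∑ n ∈ A, tm w h x m n * (if Adh h d n ∧ Adh h e n then l d * l' e else 0) =
          l d * l' e * thW w ((h m).1 * x) ((h m).1 * primorial D0 * nrm (jn d e))
            (lf (h m) a) := by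
        rw [← hass, ← htms m (primorial D0 * nrm (jn d e)) a hq, Finset.mul_sum]
        have h7 : (range (⌊2 * x⌋₊ + 1)).filter
            (fun n => n ≡ a [MOD primorial D0 * nrm (jn d e)]) =
            A.filter (fun n => Adh h d n ∧ Adh h e n) := by
          rw [hA, Finset.filter_filter]
          refine Finset.filter_congr fun n _ => ?_
          rw [← ha1 n, hadj n]
          constructor
          · rintro ⟨h8, h9⟩; exact ⟨h8, hC, h9⟩
          · rintro ⟨h8, -, h9⟩; exact ⟨h8, h9⟩
        rw [h7, Finset.sum_filter (s := A)]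
        refine Finset.sum_congr rfl fun n _ => ?_
        by_cases h8 : Adh h d n ∧ Adh h e n
        · simp only [h8, and_self, if_true]; ring
        · simp only [h8, if_false, mul_zero]
      have h9 := MPb51559.BG.S2Ex.err_le w ((h m).1 * x) ((h m).1 * primorial D0 * nrm (jn d e))
        (lf (h m) a) hq' (cop_class hapos haD (ha2 m hN))
      have h10 : ((((h m).1 * primorial D0 * nrm (jn d e)).totient : ℕ) : ℝ) =
          (h m).1 * ((primorial D0).totient : ℝ) * mw aF (jn d e) := by
        rw [(hTOT (h m).1 D0 hapos haD).2 (nrm (jn d e))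
          (MPb51559.BG.S2Ex.cop_primorial hBAS D0 hS (jn d e)), Nat.cast_mul, Nat.cast_mul,
          hB.2.2.2.2.1]
      rw [h10] at h9
      rw [h6]
      have h11 : l d * l' e * thW w ((h m).1 * x) ((h m).1 * primorial D0 * nrm (jn d e))
            (lf (h m) a) -
          thW w ((h m).1 * x) 1 0 / ((h m).1 * ((primorial D0).totient : ℝ)) *
            (l d * l' e / mw aF (jn d e)) =
          l d * l' e * (thW w ((h m).1 * x) ((h m).1 * primorial D0 * nrm (jn d e))
            (lf (h m) a) -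
            thW w ((h m).1 * x) 1 0 /
              ((h m).1 * ((primorial D0).totient : ℝ) * mw aF (jn d e))) := by
        rw [mul_sub]
        congr 1
        rw [div_mul_div_comm]
        rw [mul_div_assoc']
        congr 1
        ring
      rw [h11, abs_mul, abs_mul]
      exact mul_le_mul_of_nonneg_left h9 (by positivity)
  · simp only [hC, if_false, mul_zero, sub_zero]
    have h4 : ∑ n ∈ A, tm w h x m n * (if Adh h d n ∧ Adh h e n then l d * l' e else 0) = 0 := by
      refine Finset.sum_eq_zero fun n _ => ?_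
      have h5 : ¬ (Adh h d n ∧ Adh h e n) := fun h6 => hC ((hadj n).1 h6).1
      simp only [h5, if_false, mul_zero]
    rw [h4, abs_zero]

end S2Ex

theorem prf_S2E (hBAS : C_BAS) (hADJ : L_ADJ) (hCRT : L_CRT) (hTMS : L_TMS) (hTOT : L_TOT) :
    L_S2E := by
  intro w hw k h hinj
  obtain ⟨x0, hx0⟩ := hTMS w hw k h hinj
  refine ⟨x0, fun x hx D0 v0 S hD hS hv m l l' hl hl' => ?_⟩
  exact S2Ex.main hBAS hADJ hCRT hTOT w h hinj x (hx0 x hx) D0 v0 S hD hS hv m l l' hl hl'

end MPb51559.BG.LF
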