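import Pool.Agent.Work.MP_b51559_nt.LF.RS

set_option autoImplicit false

/-! # Block LF, item TMS: the prime weight over a progression -/

namespace MPb51559.BG.LF

open Finset
open scoped Classical

theorem lf_inj {k : ℕ} {h : Fin k → ℕ × ℕ} (hA : AdmL h) (m : Fin k) {n n' : ℕ}
    (he : lf (h m) n = lf (h m) n') : n = n' := by
  unfold lf at he
  exact Nat.eq_of_mul_eq_mul_left (hA.pos m) (Nat.add_right_cancel he)

theorem prf_TMS : L_TMS := by
  intro w hw k h hA
  refine ⟨(∑ m, ((h m).2 : ℝ)) + 1, fun x hx m q a _ => ?_⟩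
  have hh : ((h m).2 : ℝ) ≤ ∑ m, ((h m).2 : ℝ) :=
    Finset.single_le_sum (f := fun m => ((h m).2 : ℝ)) (fun i _ => Nat.cast_nonneg _) (mem_univ m)
  have h0 : (0 : ℝ) ≤ ((h m).2 : ℝ) := Nat.cast_nonneg _
  have hx0 : 0 < x := by linarith
  have ha : (1 : ℝ) ≤ (h m).1 := by exact_mod_cast hA.pos m
  have hax : 0 < ((h m).1 : ℝ) * x := by positivity
  have hxx : x ≤ ((h m).1 : ℝ) * x := by nlinarith
  -- the support of the weight
  have hsupp : ∀ p : ℕ, w ((p : ℝ) / ((h m).1 * x)) ≠ 0 →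
      (h m).2 ≤ p ∧ p < ⌊2 * (((h m).1 : ℝ) * x)⌋₊ + 1 ∧ (p : ℝ) < 15 / 8 * (((h m).1 : ℝ) * x) := by
    intro p hp
    obtain ⟨h1, h2⟩ := hw.supp _ hp
    rw [lt_div_iff₀ hax] at h1
    rw [div_lt_iff₀ hax] at h2
    refine ⟨?_, ?_, h2⟩
    · have h3 : ((h m).2 : ℝ) ≤ (p : ℝ) := by linarith
      exact_mod_cast h3
    · rw [Nat.lt_succ_iff]
      apply Nat.le_floor
      linarith
  unfold thW
  refine Finset.sum_bij_ne_zero (fun n _ _ => lf (h m) n) ?_ ?_ ?_ ?_
  · intro n hn hne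
    unfold tm at hne
    have hp : (lf (h m) n).Prime := by
      by_contra hc
      exact hne (if_neg hc)
    rw [if_pos hp] at hne
    have h3 := (hsupp _ (right_ne_zero_of_mul hne)).2.1
    rw [mem_filter] at hn
    rw [mem_filter, mem_range]
    refine ⟨h3, hp, ?_⟩
    rw [ZMod.natCast_eq_natCast_iff]
    unfold lf
    exact (hn.2.mul_left' _).add_right _
  · intro n _ _ n' _ _ he
    exact lf_inj hA m he
  · intro p hp hne
    rw [mem_filter, mem_range] at hp
    obtain ⟨h3, h4, h4'⟩ := hsupp p (right_ne_zero_of_mul hne)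
    have hmod : p ≡ lf (h m) a [MOD (h m).1 * q] := (ZMod.natCast_eq_natCast_iff _ _ _).1 hp.2.2
    have h5 : p - (h m).2 + (h m).2 = p := Nat.sub_add_cancel h3
    have h6 : p - (h m).2 ≡ (h m).1 * a [MOD (h m).1 * q] := by
      rw [← h5] at hmod
      unfold lf at hmod
      exact Nat.ModEq.add_right_cancel' _ hmod
    have h7 : (h m).1 ∣ p - (h m).2 :=
      (h6.dvd_iff (Dvd.intro _ rfl)).2 (Dvd.intro _ rfl)
    obtain ⟨n, hn⟩ := h7
    have h8 : lf (h m) n = p := by
      unfold lf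
      rw [← hn, h5]
    have h9 : n ≡ a [MOD q] := by
      rw [hn] at h6
      exact Nat.ModEq.mul_left_cancel' (hA.pos m).ne' h6
    have h10 : (n : ℝ) < 2 * x := by
      have e1 : ((h m).1 : ℝ) * n ≤ (p : ℝ) := by
        have : (h m).1 * n ≤ p := by
          rw [← h8]
          unfold lf
          exact Nat.le_add_right _ _
        exact_mod_cast this
      by_contra hc
      have hc' := not_lt.1 hc
      have e2 : ((h m).1 : ℝ) * (2 * x) ≤ (h m).1 * n := mul_le_mul_of_nonneg_left hc' (by linarith)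
      linarith
    refine ⟨n, ?_, ?_, h8⟩
    · rw [mem_filter, mem_range]
      exact ⟨Nat.lt_succ_iff.2 (Nat.le_floor h10.le), h9⟩
    · unfold tm
      rw [h8, if_pos hp.2.1]
      exact hne
  · intro n hn hne
    unfold tm at hne ⊢
    have hp : (lf (h m) n).Prime := by
      by_contra hc
      exact hne (if_neg hc)
    rw [if_pos hp]

end MPb51559.BG.LF
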