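import Pool.Agent.Work.MP_b51559_nt.BG.Fin2
import Pool.Agent.Work.MP_b51559_nt.LF.V0
import Pool.Agent.Work.MP_b51559_nt.LF.ADJ
import Pool.Agent.Work.MP_b51559_nt.LF.CRT
import Pool.Agent.Work.MP_b51559_nt.LF.WPS
import Pool.Agent.Work.MP_b51559_nt.LF.S1E
import Pool.Agent.Work.MP_b51559_nt.LF.TMS
import Pool.Agent.Work.MP_b51559_nt.LF.TOT
import Pool.Agent.Work.MP_b51559_nt.LF.S2E
import Pool.Agent.Work.MP_b51559_nt.LF.S2B
import Pool.Agent.Work.MP_b51559_nt.LF.RS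
import Pool.Agent.Work.MP_b51559_nt.LF.UPB
import Pool.Agent.Work.MP_b51559_nt.LF.KB
import Pool.Agent.Work.MP_b51559_nt.LF.S1A
import Pool.Agent.Work.MP_b51559_nt.LF.GRM
import Pool.Agent.Work.MP_b51559_nt.LF.LIN
import Pool.Agent.Work.MP_b51559_nt.LF.S2A
import Pool.Agent.Work.MP_b51559_nt.LF.POS
import Pool.Agent.Work.MP_b51559_nt.LF.MAIN
import Pool.Agent.Work.MP_b51559_nt.LF.INT

set_option autoImplicit false

/-!
# Block LF: two primes among 49 linear forms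
-/

namespace MPb51559.BG.LF

open Finset Filter Topology MeasureTheory

theorem lall_S1E : L_S1E := prf_S1E prf_BAS prf_ADJ prf_CRT prf_WPS
theorem lall_S2E : L_S2E := prf_S2E prf_BAS prf_ADJ prf_CRT prf_TMS prf_TOT
theorem lall_KB : L_KB := prf_KB prf_SUP all_YM all_BST (prf_EXT prf_INV prf_SUP) all_PH all_KBQ
  all_L1S lall_S1E (prf_UPB prf_RS)
theorem lall_S1A : L_S1A := prf_S1A prf_BAS (prf_SQ prf_BVM) lall_S1E all_L1S all_QN all_PERT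
  all_SUMK
theorem lall_S2B : L_S2B := prf_S2B prf_SUP all_SZ lall_S2E (prf_BVS all_BVE) prf_JCT
theorem lall_GRM : L_GRM := prf_GRM lall_S2B (prf_QO prf_QF) all_YM all_GRA A.bg_PNTW

/-- the sieve theorem for linear forms -/
theorem sieveL (k : ℕ) (hk : 2 ≤ k) (hN : NUMk k) (h : Fin k → ℕ × ℕ) (hAdm : AdmL h) :
    TwoPrimesL h := by
  obtain ⟨P, F, hOk, hF, hCrit⟩ := hN
  obtain ⟨w, hw⟩ := prf_Wex
  have hk0 : 0 < k := by omega
  have h1 : S1Concl w h F := lall_S1A w hw k h hk0 hAdm P.T F hOk.hT1 hOk.hT2 hF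
  have h2 : UppConcl w h F := lall_KB w hw k h hk0 hAdm P.T F hOk.hT1 hOk.hT2 hF
  have h3 : GramConcl w h F := lall_GRM w hw k h hk0 hAdm P.T F hOk.hT1 hOk.hT2 hF
  have h4 : YmConcl P.T F := by
    intro δ hδ0 hδ1
    obtain ⟨C, _, hC⟩ := all_YM k P.T F hOk.hT1 hOk.hT2 hF δ hδ0 hδ1
    obtain ⟨D1, hD1⟩ := hC 1 one_pos
    refine ⟨D1, fun D0 hD0 => ?_⟩
    obtain ⟨x0, hx0⟩ := hD1 D0 hD0
    exact ⟨x0, fun x hx m r => (hx0 x hx m r).2.1⟩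
  have h5 : S2Concl w h P F := prf_S2A prf_INV prf_RS prf_DEC prf_LIN prf_AL prf_ALD
    (prf_GII prf_MG) (prf_JD prf_MG) w hw k h hk0 hAdm P F hOk hF h3 h2 h4
  exact prf_MAIN prf_V0 prf_POS w hw k h hk0 hAdm P F hOk hF hCrit h1 h5

/-- two primes among 49 linear forms -/
theorem forms49 (a : Fin 49 → ℕ) (b : Fin 49 → ℤ) (hpos : ∀ i, 0 < a i)
    (hinj : ∀ i j, a i = a j → b i = b j → i = j)
    (hadm : ∀ p : ℕ, p.Prime → ∃ v : ℤ, ∀ i, ¬ (p : ℤ) ∣ a i * v + b i) :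
    ∃ N : ℕ, ∀ x ≥ N, ∃ n : ℕ, x < n ∧ n ≤ 2 * x ∧ ∃ i j : Fin 49, i ≠ j ∧ ∃ p q : ℕ,
      p.Prime ∧ q.Prime ∧ p ≠ q ∧ (a i : ℤ) * n + b i = p ∧ (a j : ℤ) * n + b j = q :=
  prf_INT 49 (by norm_num) (fun h hA => sieveL 49 (by norm_num) all_NUM h hA) a b hpos hinj hadm

end MPb51559.BG.LF
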