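import Pool.Agent.Work.MP_b51559_nt.BG.C.Stmts2

set_option autoImplicit false

/-!
# Block LF (captain helper41): the sieve of block BG for linear forms `a_i n + b_i`

The namespace `MPb51559.BG.LF` is inside `MPb51559.BG`: all names of block BG are visible, and the
names defined again here (`Adh`, `Vn`, `wp`, `tm`, `S1`, `S2`, `GramConcl`, `UppConcl`, `S1Concl`,
`S2Concl`) hide the old ones. A linear form `a n + b` is the pair `(a, b)` of natural numbers. The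
only change against block BG: `n + h i` is replaced by `lf (h i) n`, the condition `h i ≤ D0` by
`Big h D0`, `Function.Injective h` by `AdmL h`, and the primes of the form number `m` are of size
`(h m).1 * x`.
-/

namespace MPb51559.BG.LF

open Finset Filter Topology MeasureTheory
open scoped Classical

/-- the value of the linear form `f.1 * n + f.2` -/
def lf (f : ℕ × ℕ) (n : ℕ) : ℕ := f.1 * n + f.2

/-- admissible families of linear forms -/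
structure AdmL {k : ℕ} (h : Fin k → ℕ × ℕ) : Prop where
  pos : ∀ i, 0 < (h i).1
  indep : ∀ i j, i ≠ j → (h i).1 * (h j).2 ≠ (h j).1 * (h i).2
  adm : ∀ p : ℕ, p.Prime → ∃ v : ℕ, ∀ i, ¬ p ∣ lf (h i) v

/-- `D0` is larger than all the data -/
def Big {k : ℕ} (h : Fin k → ℕ × ℕ) (D0 : ℕ) : Prop :=
  ∀ i j, (h i).1 * (h j).2 ≤ D0 ∧ (h i).1 ≤ D0

section
variable {S : Finset ℕ} {k : ℕ}

/-- `n` adheres to the colouring: `p` divides `lf (h i) n` for every prime `p` of colour `i` -/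
def Adh (h : Fin k → ℕ × ℕ) (d : Co S k) (n : ℕ) : Prop := ∀ p i, d p = some i → (p : ℕ) ∣ lf (h i) n

/-- the sieve sum -/
noncomputable def Vn (h : Fin k → ℕ × ℕ) (l : Co S k → ℝ) (n : ℕ) : ℝ :=
  ∑ d ∈ univ.filter (fun d => Adh h d n), l d

end

/-- the weight of S1: the maximum of the shifted weights -/
noncomputable def wp (w : ℝ → ℝ) {k : ℕ} (h : Fin k → ℕ × ℕ) (x : ℝ) (n : ℕ) : ℝ :=
  ⨆ m : Fin k, w ((lf (h m) n : ℝ) / ((h m).1 * x))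

/-- the prime weight in direction `m` -/
noncomputable def tm (w : ℝ → ℝ) {k : ℕ} (h : Fin k → ℕ × ℕ) (x : ℝ) (m : Fin k) (n : ℕ) : ℝ :=
  if (lf (h m) n).Prime then Real.log (lf (h m) n : ℝ) * w ((lf (h m) n : ℝ) / ((h m).1 * x)) else 0

/-- weighted sums of S1 over the progression `v0` mod `W` -/
noncomputable def S1 (w : ℝ → ℝ) {S : Finset ℕ} {k : ℕ} (h : Fin k → ℕ × ℕ) (D0 v0 : ℕ) (x : ℝ)
    (l l' : Co S k → ℝ) : ℝ :=
  ∑ n ∈ (range (⌊2 * x⌋₊ + 1)).filter (fun n => n ≡ v0 [MOD primorial D0]),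
    wp w h x n * (Vn h l n * Vn h l' n)

/-- weighted sums of S2 over the progression -/
noncomputable def S2 (w : ℝ → ℝ) {S : Finset ℕ} {k : ℕ} (h : Fin k → ℕ × ℕ) (D0 v0 : ℕ) (x : ℝ)
    (m : Fin k) (l l' : Co S k → ℝ) : ℝ :=
  ∑ n ∈ (range (⌊2 * x⌋₊ + 1)).filter (fun n => n ≡ v0 [MOD primorial D0]),
    tm w h x m n * (Vn h l n * Vn h l' n)

/-- the Gram matrix of slices: all pairs of intervals whose tops add up to at most 2 -/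
def GramConcl (w : ℝ → ℝ) {k : ℕ} (h : Fin k → ℕ × ℕ) (F : (Fin k → ℝ) → ℝ) : Prop :=
  ∀ δ : ℝ, 0 < δ → δ < 1 / 8 → ∀ (a b a' b' : ℝ), b + b' ≤ 2 → ∀ ε : ℝ, 0 < ε →
  Ev fun D0 x => ∀ v0 : ℕ, (∀ i, (lf (h i) v0).Coprime (primorial D0)) → ∀ m : Fin k,
  (Disjoint (Set.Ioc a b) (Set.Ioc a' b') →
    |S2 w h D0 v0 x m (lsl D0 δ x F m a b) (lsl D0 δ x F m a' b')| ≤ ε * Nn w k D0 δ x) ∧
  (a = a' → b = b' →
    |S2 w h D0 v0 x m (lsl D0 δ x F m a b) (lsl D0 δ x F m a' b') -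
      Nn w k D0 δ x * GI F m a b| ≤ ε * Nn w k D0 δ x)

/-- the upper bound for step multiples of slices -/
def UppConcl (w : ℝ → ℝ) {k : ℕ} (h : Fin k → ℕ × ℕ) (F : (Fin k → ℝ) → ℝ) : Prop :=
  ∀ δ : ℝ, 0 < δ → δ < 1 / 8 → ∀ (C0 : ℝ) (J : ℕ) (a b : ℕ → ℝ), ∀ ε : ℝ, 0 < ε →
  Ev fun D0 x => ∀ v0 : ℕ, (∀ i, (lf (h i) v0).Coprime (primorial D0)) → ∀ m : Fin k,
  ∀ c : ℕ → ℝ, (∀ j < J, |c j| ≤ C0) →
  ∀ y : Co (Sx D0 x) k → ℝ, (∀ r, y r = stp J a b c (sz (Rx δ x) r) * ym (Rx δ x) F m r) →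
  S2 w h D0 v0 x m (lam aF y) (lam aF y) ≤ Nn w k D0 δ x * (4 / (1 - 4 * δ) *
    (∫ t, cutm m (fun t => stp J a b c (so m t) ^ 2 * marg F m t ^ 2 / (2 - so m t)) t) + ε)

/-- the first sum -/
def S1Concl (w : ℝ → ℝ) {k : ℕ} (h : Fin k → ℕ × ℕ) (F : (Fin k → ℝ) → ℝ) : Prop :=
  ∀ δ : ℝ, 0 < δ → δ < 1 / 8 → ∀ ε : ℝ, 0 < ε → Ev fun D0 x => ∀ v0 : ℕ,
  (∀ i, (lf (h i) v0).Coprime (primorial D0)) → ∀ l : Co (Sx D0 x) k → ℝ,
  l = lam aP (yF (Rx δ x) F) →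
  S1 w h D0 v0 x l l * Real.log (Rx δ x) ≤ Nn w k D0 δ x * ((∫ t, F t ^ 2) + ε)

/-- the prime side -/
def S2Concl (w : ℝ → ℝ) {k : ℕ} (h : Fin k → ℕ × ℕ) (P : Sl) (F : (Fin k → ℝ) → ℝ) : Prop :=
  ∀ ε : ℝ, 0 < ε → ∃ δ1 : ℝ, 0 < δ1 ∧ δ1 < 1 / 8 ∧ ∀ δ : ℝ, 0 < δ → δ ≤ δ1 → Ev fun D0 x =>
  ∀ v0 : ℕ, (∀ i, (lf (h i) v0).Coprime (primorial D0)) → ∀ m : Fin k, ∀ l : Co (Sx D0 x) k → ℝ,
  l = lam aP (yF (Rx δ x) F) →
  Nn w k D0 δ x * (Jm P F m - ε) ≤ S2 w h D0 v0 x m l l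

/-- two primes among the values of the forms, at an integer of `(x, 2x)` -/
def TwoPrimesL {k : ℕ} (h : Fin k → ℕ × ℕ) : Prop := ∃ x0 : ℝ, ∀ x ≥ x0, ∃ n : ℕ, x < n ∧
  (n : ℝ) < 2 * x ∧ ∃ i j : Fin k, i ≠ j ∧ (lf (h i) n).Prime ∧ (lf (h j) n).Prime

end MPb51559.BG.LF
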