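import Pool.Agent.Work.MP_b51559_nt.LF.Util

set_option autoImplicit false

/-! Item RS of block LF: colourings with colour `m` are not adhered to when `lf (h m) n` is prime. -/

namespace MPb51559.BG.LF

open Finset
open scoped Classical

/-- if `lf (h m) n` is a prime larger than all members of `S`, the sieve sum does not see colour `m` -/
theorem RS_Vn {S : Finset ℕ} {k : ℕ} (h : Fin k → ℕ × ℕ) (m : Fin k) (n : ℕ)
    (hp : (lf (h m) n).Prime) (hS : ∀ p ∈ S, 1 < p ∧ p < lf (h m) n) (l : Co S k → ℝ) :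
    Vn h l n = Vn h (rst m l) n := by
  unfold Vn
  refine Finset.sum_congr rfl fun d hd => ?_
  rw [Finset.mem_filter] at hd
  unfold rst
  rw [if_pos]
  intro p hpm
  have h1 : (p : ℕ) ∣ lf (h m) n := hd.2 p m hpm
  obtain ⟨h2, h3⟩ := hS p p.2
  rcases (Nat.dvd_prime hp).1 h1 with h4 | h4 <;> omega

/-- the support of the weight -/
theorem supp_w {w : ℝ → ℝ} (hw : Wt w) {k : ℕ} {h : Fin k → ℕ × ℕ} (hA : AdmL h) {x : ℝ}
    (hx : 0 < x) {m : Fin k} {n : ℕ} (hn : w ((lf (h m) n : ℝ) / ((h m).1 * x)) ≠ 0) :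
    9 / 8 * ((h m).1 * x) < (lf (h m) n : ℝ) ∧ (lf (h m) n : ℝ) < 15 / 8 * ((h m).1 * x) := by
  have ha : (0 : ℝ) < (h m).1 := by exact_mod_cast hA.pos m
  have hax : 0 < ((h m).1 : ℝ) * x := mul_pos ha hx
  obtain ⟨h1, h2⟩ := hw.supp _ hn
  exact ⟨(lt_div_iff₀ hax).1 h1, (div_lt_iff₀ hax).1 h2⟩

/-- a nonzero prime weight: `lf (h m) n` is a prime larger than `x` -/
theorem RS_tm {w : ℝ → ℝ} (hw : Wt w) {k : ℕ} {h : Fin k → ℕ × ℕ} (hA : AdmL h) (x : ℝ)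
    (hx : 1 ≤ x) (m : Fin k) (n : ℕ) (hn : tm w h x m n ≠ 0) :
    (lf (h m) n).Prime ∧ 9 / 8 * ((h m).1 * x) < (lf (h m) n : ℝ) ∧
      (lf (h m) n : ℝ) < 15 / 8 * ((h m).1 * x) := by
  unfold tm at hn
  split_ifs at hn with hp
  · exact ⟨hp, supp_w hw hA (by linarith) (right_ne_zero_of_mul hn)⟩
  · exact absurd rfl hn

theorem RS_Sx (D0 : ℕ) (x : ℝ) (p : ℕ) (hp : p ∈ Sx D0 x) : p.Prime ∧ D0 < p ∧ (p : ℝ) < x := by
  unfold Sx at hp
  rw [Finset.mem_filter, Finset.mem_range] at hp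
  exact ⟨hp.2.1, hp.2.2, Nat.lt_of_lt_floor hp.1⟩

theorem prf_RS : L_RS := by
  intro w hw k h hA D0 v0 x hx m l l'
  unfold S2
  refine Finset.sum_congr rfl fun n _ => ?_
  by_cases hn : tm w h x m n = 0
  · rw [hn, zero_mul, zero_mul]
  · obtain ⟨hp, hlt, -⟩ := RS_tm hw hA x hx m n hn
    have ha : (1 : ℝ) ≤ (h m).1 := by exact_mod_cast hA.pos m
    have hS : ∀ p ∈ Sx D0 x, 1 < p ∧ p < lf (h m) n := by
      intro p hpS
      obtain ⟨h1, _, h3⟩ := RS_Sx D0 x p hpS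
      refine ⟨h1.one_lt, ?_⟩
      have : (p : ℝ) < ((lf (h m) n : ℕ) : ℝ) := by
        nlinarith
      exact_mod_cast this
    rw [RS_Vn h m n hp hS l, RS_Vn h m n hp hS l']

end MPb51559.BG.LF
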