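import Pool.Agent.Work.MP_b51559_nt.LF.Defs

set_option autoImplicit false

/-!
# Block LF: statements

Every item `L_X` is a copy of the item `C_X` of block BG (file `BG/C/X.lean`, proof landed) for linear
forms. COPY THAT FILE to `LF/X.lean`, change the namespace to `MPb51559.BG.LF`, the import to
`Pool.Agent.Work.MP_b51559_nt.LF.Stmts` (and `Pool.Agent.Work.MP_b51559_nt.BG.C.X` if you want to use
its lemmas), the types `Fin k → ℕ` to `Fin k → ℕ × ℕ`, `n + h i` to `lf (h i) n`, and repair. The main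
theorem is `theorem prf_X : L_X` with the hypotheses of the old one (`L_` versions where they exist).
-/

namespace MPb51559.BG.LF

open Finset Filter Topology MeasureTheory
open scoped Classical

/-- TOT (EASY). `phi (a * primorial D0) = a * phi (primorial D0)`: all prime factors of `a ≤ D0` divide
`primorial D0`, so both numbers have the same prime factors (`Nat.totient_mul_prod_primeFactors` or
`Nat.totient_eq_mul_prod_factors`, `Nat.primeFactors_mul`); and the version with a coprime factor. -/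
def L_TOT : Prop := ∀ a D0 : ℕ, 0 < a → a ≤ D0 →
  (a * primorial D0).totient = a * (primorial D0).totient ∧
  ∀ n : ℕ, (primorial D0).Coprime n → (a * primorial D0 * n).totient = a * (primorial D0).totient * n.totient

/-- ADJ (EASY). As C_ADJ: if `p ∣ a_i n + b_i` and `p ∣ a_j n + b_j` then `p` divides
`a_j (a_i n + b_i) - a_i (a_j n + b_j) = a_j b_i - a_i b_j`, which is not zero and at most `D0 < p` in
absolute value. -/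
def L_ADJ : Prop := ∀ (D0 : ℕ) (S : Finset ℕ) (k : ℕ) (h : Fin k → ℕ × ℕ), (∀ p ∈ S, D0 < p) →
  Big h D0 → AdmL h → ∀ (d e : Co S k) (n : ℕ),
  (Adh h d n ∧ Adh h e n) ↔ (Cmp d e ∧ Adh h (jn d e) n)

/-- CRT (EASY-MEDIUM). As C_CRT. For `p` of colour `i`: `p` does not divide `a_i` (`0 < a_i ≤ D0 < p`), so
`p ∣ a_i n + b_i` is one residue class modulo `p` (take `c` with `a_i c = 1` mod `p` and
`n = (p - 1) c b_i`). Coprimality of `lf (h m) a` to `p` of colour `i ≠ m`: as in ADJ. Modulo `W`: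
`a = v0`. -/
def L_CRT : Prop := ∀ (D0 : ℕ) (S : Finset ℕ) (k : ℕ) (h : Fin k → ℕ × ℕ),
  (∀ p ∈ S, p.Prime ∧ D0 < p) → Big h D0 → AdmL h → ∀ v0 : ℕ,
  (∀ i, (lf (h i) v0).Coprime (primorial D0)) → ∀ u : Co S k, ∃ a : ℕ,
  (∀ n : ℕ, (n ≡ v0 [MOD primorial D0] ∧ Adh h u n) ↔ n ≡ a [MOD primorial D0 * nrm u]) ∧
  ∀ m, NoC m u → (lf (h m) a).Coprime (primorial D0 * nrm u)

/-- V0 (EASY). As C_V0. -/
def L_V0 : Prop := ∀ (k : ℕ) (h : Fin k → ℕ × ℕ), AdmL h → ∀ D0 : ℕ, ∃ v0 : ℕ,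
  ∀ i, (lf (h i) v0).Coprime (primorial D0)

/-- WPS (EASY-MEDIUM). As C_WPS: `(a n + b)/(a x) = (n + b/a)/x`, the real shift `b/a ≤ b`. -/
def L_WPS : Prop := ∀ w, Wt w → ∀ (k : ℕ) (h : Fin k → ℕ × ℕ), 0 < k → AdmL h →
  ∃ C x0 : ℝ, ∀ x ≥ x0,
  (∀ n, 0 ≤ wp w h x n) ∧ ∀ q a : ℕ, 0 < q →
  |∑ n ∈ (range (⌊2 * x⌋₊ + 1)).filter (fun n => n ≡ a [MOD q]), wp w h x n -
    x * (∫ u, w u) / q| ≤ C

/-- S1E (EASY). As C_S1E. -/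
def L_S1E : Prop := ∀ w, Wt w → ∀ (k : ℕ) (h : Fin k → ℕ × ℕ), 0 < k → AdmL h →
  ∃ C x0 : ℝ, 0 ≤ C ∧ ∀ x ≥ x0, ∀ (D0 v0 : ℕ) (S : Finset ℕ), Big h D0 →
  (∀ p ∈ S, p.Prime ∧ D0 < p) → (∀ i, (lf (h i) v0).Coprime (primorial D0)) →
  ∀ l l' : Co S k → ℝ,
  |S1 w h D0 v0 x l l' - x * (∫ u, w u) / (primorial D0 : ℝ) * Qf aP l l'| ≤
    C * (∑ d, |l d|) * (∑ d, |l' d|)

/-- TMS (EASY-MEDIUM). As C_TMS: substitute `p = a_m n + b_m`; `n = a` mod `q` iff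
`p = a_m a + b_m` mod `a_m q` (`a_m > 0`); if `w(p/(a_m x)) ≠ 0` then `9 a_m x/8 < p < 15 a_m x/8`, and
`p = b_m` mod `a_m`, `p ≥ b_m`, so `n = (p - b_m)/a_m` lies in the range for `x` large. -/
def L_TMS : Prop := ∀ w, Wt w → ∀ (k : ℕ) (h : Fin k → ℕ × ℕ), AdmL h → ∃ x0 : ℝ, ∀ x ≥ x0,
  ∀ (m : Fin k) (q a : ℕ), 0 < q →
  ∑ n ∈ (range (⌊2 * x⌋₊ + 1)).filter (fun n => n ≡ a [MOD q]), tm w h x m n =
    thW w ((h m).1 * x) ((h m).1 * q) (lf (h m) a)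

/-- S2E (EASY-MEDIUM). As C_S2E; the class of TMS is `lf (h m) a` modulo `a_m W N`, `N = nrm (jn d e)`,
coprime to it (CRT and: `lf (h m) a` is prime to `a_m` since every prime factor of `a_m ≤ D0` divides
`W`), `phi(a_m W N) = a_m phi(W) phi(N)` (TOT). -/
def L_S2E : Prop := ∀ w, Wt w → ∀ (k : ℕ) (h : Fin k → ℕ × ℕ), AdmL h →
  ∃ x0 : ℝ, ∀ x ≥ x0, ∀ (D0 v0 : ℕ) (S : Finset ℕ), Big h D0 →
  (∀ p ∈ S, p.Prime ∧ D0 < p) → (∀ i, (lf (h i) v0).Coprime (primorial D0)) →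
  ∀ (m : Fin k) (l l' : Co S k → ℝ), (∀ d, l d ≠ 0 → NoC m d) → (∀ d, l' d ≠ 0 → NoC m d) →
  |S2 w h D0 v0 x m l l' -
    thW w ((h m).1 * x) 1 0 / ((h m).1 * ((primorial D0).totient : ℝ)) * Qf aF l l'| ≤
    ∑ d, ∑ e, if Cmp d e then
      |l d| * |l' e| * Eq1 w ((h m).1 * x) ((h m).1 * primorial D0 * nrm (jn d e)) else 0

/-- S2B (EASY-MEDIUM). As C_S2B, with C_BVS at `X = a_m x` and C_JCT with `W = a_m primorial D0`: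
`a_m W R^2 ≤ (a_m x)^(1/2 - δ)` for `x` large; for the final bound use the power `A = 4k + 11` of the
logarithm (`a_m x/log^A(a_m x) * log^... ≤ x/log x`). -/
def L_S2B : Prop := ∀ w, Wt w → ∀ (k : ℕ) (h : Fin k → ℕ × ℕ), AdmL h → ∀ δ : ℝ, 0 < δ →
  δ < 1 / 8 → ∀ D0 : ℕ, 3 ≤ D0 → Big h D0 → ∃ x0 : ℝ, ∀ x ≥ x0, ∀ v0 : ℕ,
  (∀ i, (lf (h i) v0).Coprime (primorial D0)) →
  ∀ (m : Fin k) (y y' : Co (Sx D0 x) k → ℝ) (s s' : ℝ), 0 ≤ s → 0 ≤ s' → s + s' ≤ 2 →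
  (∀ r, |y r| ≤ Real.log x ^ 2) → (∀ r, |y' r| ≤ Real.log x ^ 2) →
  (∀ r, y r ≠ 0 → NoC m r ∧ sz (Rx δ x) r ≤ s) →
  (∀ r, y' r ≠ 0 → NoC m r ∧ sz (Rx δ x) r ≤ s') →
  |S2 w h D0 v0 x m (lam aF y) (lam aF y') -
    thW w ((h m).1 * x) 1 0 / ((h m).1 * ((primorial D0).totient : ℝ)) *
      Qf aF (lam aF y) (lam aF y')| ≤ x / Real.log x

/-- RS (EASY). As C_RS: on `n` with `a_m n + b_m` prime and weight not `0`,
`a_m n + b_m > 9 a_m x/8 ≥ 9x/8 > p` for all `p` in `Sx`. -/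
def L_RS : Prop := ∀ w, Wt w → ∀ (k : ℕ) (h : Fin k → ℕ × ℕ), AdmL h → ∀ (D0 v0 : ℕ) (x : ℝ),
  1 ≤ x → ∀ (m : Fin k) (l l' : Co (Sx D0 x) k → ℝ),
  S2 w h D0 v0 x m l l' = S2 w h D0 v0 x m (rst m l) (rst m l')

/-- UPB (EASY). As C_UPB: `tm ≤ log(2 a_m x) wp ≤ log(2 A x) wp` on primes. -/
def L_UPB : Prop := ∀ w, Wt w → ∀ (k : ℕ) (h : Fin k → ℕ × ℕ), AdmL h →
  ∀ A : ℕ, (∀ i, (h i).1 ≤ A) →
  ∃ x0 : ℝ, ∀ x ≥ x0, ∀ (D0 v0 : ℕ) (m : Fin k) (l : Co (Sx D0 x) k → ℝ),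
  S2 w h D0 v0 x m l l ≤ Real.log (2 * A * x) * S1 w h D0 v0 x l l ∧
  ∀ l' : Co (Sx D0 x) k → ℝ, rst m l' = l →
    S2 w h D0 v0 x m l l ≤ Real.log (2 * A * x) * S1 w h D0 v0 x l' l'

/-- KB (EASY-MEDIUM). As C_KB, with `log(2 A x)` for `log(2x)` (`A = ∑ a_i`), still
`≤ (1+ε') (4/(1-4δ)) log R` for `x` large. -/
def L_KB : Prop := ∀ w, Wt w → ∀ (k : ℕ) (h : Fin k → ℕ × ℕ), 0 < k → AdmL h →
  ∀ (T : ℝ) (F : (Fin k → ℝ) → ℝ), 1 < T → T < 2 → Tst k T F → UppConcl w h F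

/-- S1A (EASY). As C_S1A. -/
def L_S1A : Prop := ∀ w, Wt w → ∀ (k : ℕ) (h : Fin k → ℕ × ℕ), 0 < k → AdmL h →
  ∀ (T : ℝ) (F : (Fin k → ℝ) → ℝ), 1 < T → T < 2 → Tst k T F → S1Concl w h F

/-- GRM (EASY-MEDIUM). As C_GRM: `thW w (a_m x) 1 0/(a_m phi(W)) lk^(k+1) = (1+o(1)) Nn` (PNTW at
`a_m x`). -/
def L_GRM : Prop := ∀ w, Wt w → ∀ (k : ℕ) (h : Fin k → ℕ × ℕ), 0 < k → AdmL h →
  ∀ (T : ℝ) (F : (Fin k → ℝ) → ℝ), 1 < T → T < 2 → Tst k T F → GramConcl w h F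

/-- LIN (EASY). As C_LIN (`0 ≤ x`, the logarithm of a prime is nonnegative). -/
def L_LIN : Prop := ∀ w, Wt w → ∀ (k : ℕ) (h : Fin k → ℕ × ℕ) (D0 v0 : ℕ) (x : ℝ) (S : Finset ℕ)
  (m : Fin k), ∃ B : (Co S k → ℝ) →ₗ[ℝ] (Co S k → ℝ) →ₗ[ℝ] ℝ,
  (∀ l l', B l l' = S2 w h D0 v0 x m l l') ∧ (∀ u v, B u v = B v u) ∧ (∀ v, 0 ≤ B v v) ∧
  (∀ (a : ℕ → ℝ) (y y' : Co S k → ℝ) (c : ℝ), lam a (y + y') = lam a y + lam a y' ∧
    lam a (c • y) = c • lam a y)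

/-- S2A (EASY). As C_S2A. -/
def L_S2A : Prop := ∀ w, Wt w → ∀ (k : ℕ) (h : Fin k → ℕ × ℕ), 0 < k → AdmL h →
  ∀ (P : Sl) (F : (Fin k → ℝ) → ℝ),
  P.Ok → Tst k P.T F → GramConcl w h F → UppConcl w h F → YmConcl P.T F → S2Concl w h P F

/-- POS (EASY). As C_POS: some `w((a_m n + b_m)/(a_m x)) ≠ 0`, so `n > x` and `n < 15x/8` for `x`
large. -/
def L_POS : Prop := ∀ w, Wt w → ∀ (k : ℕ) (h : Fin k → ℕ × ℕ), 0 < k → AdmL h →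
  ∀ A : ℕ, (∀ i, (h i).1 ≤ A) →
  ∃ x0 : ℝ, ∀ x ≥ x0, ∀ (D0 v0 : ℕ) (S : Finset ℕ) (l : Co S k → ℝ),
  Real.log (2 * A * x) * S1 w h D0 v0 x l l < ∑ m, S2 w h D0 v0 x m l l →
  ∃ n : ℕ, x < n ∧ (n : ℝ) < 2 * x ∧
    ∃ i j : Fin k, i ≠ j ∧ (lf (h i) n).Prime ∧ (lf (h j) n).Prime

/-- MAIN (EASY-MEDIUM). As C_MAIN with `log(2 A x)`. -/
def L_MAIN : Prop := ∀ w, Wt w → ∀ (k : ℕ) (h : Fin k → ℕ × ℕ), 0 < k → AdmL h →
  ∀ (P : Sl) (F : (Fin k → ℝ) → ℝ), P.Ok → Tst k P.T F → Crit P F → S1Concl w h F →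
  S2Concl w h P F → TwoPrimesL h

/-- INT (EASY-MEDIUM). From natural to integral constant terms: choose `M` with `b_i + a_i M ≥ 0` for all
`i`, apply the hypothesis to `h i = (a i, (b i + a i M).toNat)` at `x - M`, `n = n' + M`. `h` is
admissible: from a prime `p` and `v : ℤ` take a natural `v' = v - M` mod `p`. The family `h` is
pairwise not proportional: if `a_i b_j = a_j b_i` with `i ≠ j` then `gcd(a_i, b_i) = 1` (a prime `p`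
dividing both divides `a_i v + b_i` for every `v`) and `gcd(a_j, b_j) = 1`, so `a_i = a_j` (both
positive, `a_i ∣ a_j` and `a_j ∣ a_i`), `b_i = b_j`, against injectivity. -/
def L_INT : Prop := ∀ k : ℕ, 0 < k → (∀ h : Fin k → ℕ × ℕ, AdmL h → TwoPrimesL h) →
  ∀ (a : Fin k → ℕ) (b : Fin k → ℤ), (∀ i, 0 < a i) → (∀ i j, a i = a j → b i = b j → i = j) →
  (∀ p : ℕ, p.Prime → ∃ v : ℤ, ∀ i, ¬ (p : ℤ) ∣ a i * v + b i) →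
  ∃ N : ℕ, ∀ x ≥ N, ∃ n : ℕ, x < n ∧ n ≤ 2 * x ∧ ∃ i j : Fin k, i ≠ j ∧ ∃ p q : ℕ,
    p.Prime ∧ q.Prime ∧ p ≠ q ∧ (a i : ℤ) * n + b i = p ∧ (a j : ℤ) * n + b j = q

end MPb51559.BG.LF
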